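import Pool.Agent.W5h93.FMR.Layers

/-! Descent through the layers, with values in the residue field. -/

set_option autoImplicit false
set_option linter.all false

namespace Pool.Agent.W5h93.FMR

open Pool.Agent.Z384 IsLocalRing Matrix Pool.Agent.W5h93.FMP Pool.Agent.W5h93.FMQ

theorem charP_residue {A : Type*} [CommRing A] [IsLocalRing A] (p : ℕ) [hp : Fact p.Prime]
    (hpA : (p : A) ∈ maximalIdeal A) : CharP (ResidueField A) p := by
  have h0 : ((p : ℕ) : ResidueField A) = 0 := by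
    have : residue A (p : A) = 0 := (residue_eq_zero_iff _).2 hpA
    rwa [map_natCast] at this
  obtain ⟨q, hq⟩ := CharP.exists (ResidueField A)
  have h1 := (CharP.cast_eq_zero_iff (ResidueField A) q p).1 h0
  rcases (Nat.dvd_prime hp.out).1 h1 with h2 | h2
  · exfalso
    subst h2
    have := (CharP.cast_eq_zero_iff (ResidueField A) 1 1).2 dvd_rfl
    rw [Nat.cast_one] at this
    exact one_ne_zero this
  · exact h2 ▸ hq

variable {A : Type*} [CommRing A] [IsLocalRing A] [IsNoetherianRing A]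
variable {G : Type*} [Group G] {N : Subgroup G} [hN : N.Normal]

theorem layers {p : ℕ} [hp : Fact p.Prime] (hpA : (p : A) ∈ maximalIdeal A)
    (hfin : Finite (ResidueField A)) (ρ : G →* GL (Fin 2) A) (g : G) (r : (ResidueField A)ˣ)
    (htr : residue A (ρ g : Matrix (Fin 2) (Fin 2) A).trace = 1 + r)
    (hdet : residue A (ρ g : Matrix (Fin 2) (Fin 2) A).det = r)
    (hun : ∀ σ ∈ N, (ρ σ : Matrix (Fin 2) (Fin 2) A).trace - 2 ∈ maximalIdeal A ∧
      (ρ σ : Matrix (Fin 2) (Fin 2) A).det - 1 ∈ maximalIdeal A)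
    (h : N →* Multiplicative (ResidueField A)) (b : ResidueField A)
    (hb : ∀ σ, Multiplicative.toAdd (h (MulAut.conjNormal g σ)) = b * Multiplicative.toAdd (h σ))
    (hb1 : b ≠ 1) (hb2 : ∀ φ : ResidueField A ≃+* ResidueField A, φ b ≠ r)
    (hb3 : ∀ φ : ResidueField A ≃+* ResidueField A, φ b ≠ ((r⁻¹ : (ResidueField A)ˣ) : ResidueField A))
    (m : ℕ) :
    (∀ σ : N, (σ : G) ∈ cong ρ m → h σ = 1) → ∀ σ, h σ = 1 := by
  have hchar := charP_residue p hpA
  obtain ⟨Q, hQ1, hQ2⟩ := exists_poly p r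
  have hP : (Q.map (Int.castRingHom (ResidueField A))).eval b ≠ 0 := by
    intro h0
    rcases hQ2 b h0 with h1 | ⟨φ, h1⟩ | ⟨φ, h1⟩
    · exact hb1 h1
    · exact hb2 φ h1
    · exact hb3 φ h1
  induction m with
  | zero =>
    intro hm σ
    refine hm σ (mem_cong.2 fun i j => ?_)
    rw [pow_zero, Ideal.one_eq_top]
    trivial
  | succ m ih =>
    intro hm
    refine ih fun σ hσ => ?_
    set J : Ideal A := maximalIdeal A ^ (m + 1) with hJ
    set π := (Ideal.Quotient.mk J) with hπ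
    let ρ' : G →* GL (Fin 2) (A ⧸ J) := (GeneralLinearGroup.map (n := Fin 2) π).comp ρ
    have hρ' : ∀ σ, (ρ' σ : Matrix (Fin 2) (Fin 2) (A ⧸ J)) = π.mapMatrix (ρ σ : Matrix (Fin 2) (Fin 2) A) :=
      fun σ => rfl
    have hρ1 : ∀ σ, (ρ' σ : Matrix (Fin 2) (Fin 2) (A ⧸ J)) - 1 =
        π.mapMatrix ((ρ σ : Matrix (Fin 2) (Fin 2) A) - 1) := by
      intro σ
      rw [hρ', map_sub, map_one]
    have htr' : (ρ' g : Matrix (Fin 2) (Fin 2) (A ⧸ J)).trace =
        π (ρ g : Matrix (Fin 2) (Fin 2) A).trace := by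
      rw [hρ', Matrix.trace_fin_two, Matrix.trace_fin_two, map_add]
      rfl
    have hdet' : (ρ' g : Matrix (Fin 2) (Fin 2) (A ⧸ J)).det =
        π (ρ g : Matrix (Fin 2) (Fin 2) A).det := by
      rw [hρ', Matrix.det_fin_two, Matrix.det_fin_two, map_sub, map_mul, map_mul]
      rfl
    have hMm : ∀ τ ∈ (N ⊓ cong ρ m : Subgroup G), InI (maximalIdeal A ^ m)
        ((ρ τ : Matrix (Fin 2) (Fin 2) A) - 1) := fun τ hτ => mem_cong.1 (Subgroup.mem_inf.1 hτ).2
    have hsm : ∀ x ∈ maximalIdeal A, ∀ τ ∈ (N ⊓ cong ρ m : Subgroup G),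
        x • ((ρ' τ : Matrix (Fin 2) (Fin 2) (A ⧸ J)) - 1) = 0 := by
      intro x hx τ hτ
      rw [hρ1]
      ext i j
      rw [Matrix.smul_apply, Algebra.smul_def]
      show π x * π (((ρ τ : Matrix (Fin 2) (Fin 2) A) - 1) i j) = 0
      rw [← map_mul]
      refine Ideal.Quotient.eq_zero_iff_mem.2 ?_
      rw [hJ, pow_succ']
      exact Ideal.mul_mem_mul hx (hMm τ hτ i j)
    have hadd : ∀ τ ∈ (N ⊓ cong ρ m : Subgroup G), ∀ τ' ∈ (N ⊓ cong ρ m : Subgroup G),
        ((ρ' τ : Matrix (Fin 2) (Fin 2) (A ⧸ J)) - 1) *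
          ((ρ' τ' : Matrix (Fin 2) (Fin 2) (A ⧸ J)) - 1) = 0 := by
      intro τ hτ τ' hτ'
      rw [hρ1, hρ1, ← map_mul, ← inI_iff]
      rcases Nat.eq_zero_or_pos m with hm0 | hm0
      · subst hm0
        rw [hJ, zero_add, pow_one]
        have h1 := (Subgroup.mem_inf.1 hτ).1
        have h2 := (Subgroup.mem_inf.1 hτ').1
        refine unip_mul (hun τ h1).1 (hun τ h1).2 (hun τ' h2).1 (hun τ' h2).2 ?_
        have := (hun (τ * τ') (mul_mem h1 h2)).1
        rwa [map_mul, Units.val_mul] at this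
      · have := InI.mul (hMm τ hτ) (hMm τ' hτ')
        refine this.mono ?_
        rw [← pow_add]
        exact Ideal.pow_le_pow_right (by omega)
    have hσM : (σ : G) ∈ (N ⊓ cong ρ m : Subgroup G) := Subgroup.mem_inf.2 ⟨σ.2, hσ⟩
    have hp0 := eig_step (N := N) ρ' (N ⊓ cong ρ m) g (fun τ hτ => ?_) hadd (fun i => Q.coeff i)
      (Q.natDegree + 1) h b (fun i σ => conj_pow_eig h hb i σ) ?_ σ hσM ?_
    · have e : (∑ i ∈ Finset.range (Q.natDegree + 1), ((Q.coeff i : ℤ) : ResidueField A) * b ^ i) =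
          (Q.map (Int.castRingHom (ResidueField A))).eval b := by
        rw [Polynomial.eval_map, Polynomial.eval₂_eq_sum_range]
        rfl
      rw [e] at hp0
      apply Multiplicative.toAdd.injective
      rw [toAdd_one]
      exact (mul_eq_zero.1 hp0).resolve_left hP
    · refine Subgroup.mem_inf.2 ⟨hN.conj_mem _ (Subgroup.mem_inf.1 hτ).1 _, ?_⟩
      exact (cong_normal ρ m).conj_mem _ (Subgroup.mem_inf.1 hτ).2 _
    · intro τ hτ hτ1
      refine hm τ (mem_cong.2 ?_)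
      rw [inI_iff]
      have := hρ1 (τ : G)
      rw [hτ1, Units.val_one, sub_self] at this
      exact this.symm
    · exact kill _ _ _ (Units.mul_inv _) (Units.inv_mul _) (fun x hx => hsm x hx σ hσM) _ _ htr'.symm
        hdet'.symm (r : ResidueField A) htr hdet Q hQ1

end Pool.Agent.W5h93.FMR
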