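import Pool.Agent.W5h93.FMQ.Inert

/-! Potentially reducible representations over arbitrary fields over the coefficient ring. -/

set_option autoImplicit false
set_option linter.all false

namespace Pool.Agent.W5h93.FMR

open Pool.Agent.Z384 IsLocalRing Matrix Pool.Agent.W5h93.FMP Pool.Agent.W5h93.FMQ

section dih

variable {A : Type*} [CommRing A] {G : Type*} [Group G] (F : Type*) [Field F] [Algebra A F]

/-- the action on `F ^ 2` -/
noncomputable def ac (ρ : G →* GL (Fin 2) A) (g : G) : (Fin 2 → F) →ₗ[F] (Fin 2 → F) :=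
  Matrix.mulVecLin ((ρ g : Matrix (Fin 2) (Fin 2) A).map (algebraMap A F))

variable {F}

lemma ac_apply (ρ : G →* GL (Fin 2) A) (g : G) (v : Fin 2 → F) :
    ac F ρ g v = ((ρ g : Matrix (Fin 2) (Fin 2) A).map (algebraMap A F)) *ᵥ v := rfl

lemma ac_mul (ρ : G →* GL (Fin 2) A) (g h : G) (v : Fin 2 → F) :
    ac F ρ (g * h) v = ac F ρ g (ac F ρ h v) := by
  rw [ac_apply, ac_apply, ac_apply, mulVec_mulVec, map_mul, Units.val_mul, Matrix.map_mul]

lemma ac_one (ρ : G →* GL (Fin 2) A) (v : Fin 2 → F) : ac F ρ 1 v = v := by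
  rw [ac_apply, map_one, Units.val_one, Matrix.map_one _ (map_zero _) (map_one _), one_mulVec]

lemma ac_inj (ρ : G →* GL (Fin 2) A) (g : G) {u w : Fin 2 → F} (huw : ac F ρ g u = ac F ρ g w) : u = w := by
  have h1 := congrArg (ac F ρ g⁻¹) huw
  rwa [← ac_mul, ← ac_mul, inv_mul_cancel, ac_one, ac_one] at h1

/-- the stabilizer of a line -/
noncomputable def sl (ρ : G →* GL (Fin 2) A) {v : Fin 2 → F} (hv : v ≠ 0) : Subgroup G where
  carrier := {g | ∃ c : F, ac F ρ g v = c • v}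
  mul_mem' := by
    rintro a b ⟨c, hc⟩ ⟨d, hd⟩
    exact ⟨d * c, by rw [ac_mul, hd, map_smul, hc, smul_smul]⟩
  one_mem' := ⟨1, by rw [ac_one, one_smul]⟩
  inv_mem' := by
    rintro a ⟨c, hc⟩
    have hc0 : c ≠ 0 := by
      rintro rfl
      rw [zero_smul] at hc
      apply hv
      apply ac_inj ρ a
      rw [hc, map_zero]
    refine ⟨c⁻¹, ?_⟩
    apply ac_inj ρ a
    rw [← ac_mul, mul_inv_cancel, ac_one, map_smul, hc, smul_smul, inv_mul_cancel₀ hc0, one_smul]

lemma mem_sl {ρ : G →* GL (Fin 2) A} {v : Fin 2 → F} {hv : v ≠ 0} {g : G} :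
    g ∈ sl ρ hv ↔ ∃ c : F, ac F ρ g v = c • v := Iff.rfl

/-- linear description of the stabilizer -/
lemma mem_sl_iff {ρ : G →* GL (Fin 2) A} {v : Fin 2 → F} {hv : v ≠ 0} {g : G} :
    g ∈ sl ρ hv ↔ (ac F ρ g v) 0 * v 1 - (ac F ρ g v) 1 * v 0 = 0 := by
  rw [mem_sl]
  constructor
  · rintro ⟨c, hc⟩
    rw [hc, Pi.smul_apply, Pi.smul_apply, smul_eq_mul, smul_eq_mul]
    ring
  · intro h
    by_cases h0 : v 0 = 0
    · have h1 : v 1 ≠ 0 := by
        intro h1
        apply hv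
        ext i
        fin_cases i
        · exact h0
        · exact h1
      refine ⟨(ac F ρ g v) 1 / v 1, ?_⟩
      ext i
      rw [h0, mul_zero, sub_zero] at h
      fin_cases i
      · show (ac F ρ g v) 0 = (ac F ρ g v) 1 / v 1 * v 0
        rw [h0, mul_zero]
        exact (mul_eq_zero.1 h).resolve_right h1
      · show (ac F ρ g v) 1 = (ac F ρ g v) 1 / v 1 * v 1
        rw [div_mul_cancel₀ _ h1]
    · refine ⟨(ac F ρ g v) 0 / v 0, ?_⟩
      ext i
      fin_cases i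
      · show (ac F ρ g v) 0 = (ac F ρ g v) 0 / v 0 * v 0
        rw [div_mul_cancel₀ _ h0]
      · show (ac F ρ g v) 1 = (ac F ρ g v) 0 / v 0 * v 1
        rw [div_mul_eq_mul_div, eq_div_iff h0]
        exact (sub_eq_zero.1 h).symm

theorem sl_closed [IsLocalRing A] [IsNoetherianRing A] [TopologicalSpace G] [IsTopologicalGroup G]
    [TopologicalSpace A] (hA : IsAdic (maximalIdeal A)) {ρ : G →* GL (Fin 2) A}
    (hρ : ∀ i j, Continuous fun σ => (ρ σ : Matrix (Fin 2) (Fin 2) A) i j)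
    {v : Fin 2 → F} (hv : v ≠ 0) : IsClosed (sl ρ hv : Set G) := by
  refine isClosed_of_closure_subset fun g hg => ?_
  -- the linear map
  let L : (Fin 4 → A) →ₗ[A] F :=
    { toFun := fun w => (algebraMap A F (w 0) * v 0 + algebraMap A F (w 1) * v 1) * v 1 -
        (algebraMap A F (w 2) * v 0 + algebraMap A F (w 3) * v 1) * v 0
      map_add' := by
        intro w w'
        simp only [Pi.add_apply, map_add]
        ring
      map_smul' := by
        intro a w
        simp only [Pi.smul_apply, smul_eq_mul, map_mul, RingHom.id_apply, Algebra.smul_def]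
        ring }
  let en : G → Fin 4 → A := fun σ => ![(ρ σ : Matrix (Fin 2) (Fin 2) A) 0 0,
    (ρ σ : Matrix (Fin 2) (Fin 2) A) 0 1, (ρ σ : Matrix (Fin 2) (Fin 2) A) 1 0,
    (ρ σ : Matrix (Fin 2) (Fin 2) A) 1 1]
  have hL : ∀ σ, L (en σ) = (ac F ρ σ v) 0 * v 1 - (ac F ρ σ v) 1 * v 0 := by
    intro σ
    rw [ac_apply]
    simp only [mulVec, dotProduct, Fin.sum_univ_two, Matrix.map_apply]
    rfl
  have hmem : ∀ σ, σ ∈ sl ρ hv ↔ en σ ∈ LinearMap.ker L := by
    intro σ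
    rw [mem_sl_iff, LinearMap.mem_ker, hL]
  show g ∈ sl ρ hv
  rw [hmem]
  refine krull (LinearMap.ker L) fun m => ?_
  have hopen : IsOpen ((fun x => x⁻¹ * g) ⁻¹' (cong ρ m : Set G)) :=
    (cong_open hA hρ m).preimage (continuous_inv.mul continuous_const)
  obtain ⟨x, hx1, hx2⟩ := mem_closure_iff.1 hg _ hopen (by
    show g⁻¹ * g ∈ cong ρ m
    rw [inv_mul_cancel]
    exact one_mem _)
  refine ⟨en x, (hmem x).1 hx2, ?_⟩
  have h3 := (mem_cong.1 hx1).mulL (ρ x : Matrix (Fin 2) (Fin 2) A)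
  have e : (ρ x : Matrix (Fin 2) (Fin 2) A) * ((ρ (x⁻¹ * g) : Matrix (Fin 2) (Fin 2) A) - 1) =
      (ρ g : Matrix (Fin 2) (Fin 2) A) - (ρ x : Matrix (Fin 2) (Fin 2) A) := by
    rw [mul_sub, mul_one, ← Units.val_mul, ← map_mul, mul_inv_cancel_left]
  rw [e] at h3
  intro i
  fin_cases i
  · exact h3 0 0
  · exact h3 0 1
  · exact h3 1 0
  · exact h3 1 1

/-- **Potentially reducible representations.** -/
theorem dihS [IsLocalRing A] [IsNoetherianRing A] [TopologicalSpace G] [IsTopologicalGroup G]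
    [TopologicalSpace A] (hA : IsAdic (maximalIdeal A)) {ρ : G →* GL (Fin 2) A}
    (hρ : ∀ i j, Continuous fun σ => (ρ σ : Matrix (Fin 2) (Fin 2) A) i j) {D : Set G} {D' : Subgroup G}
    (hsurj : ∀ g : G, ∃ δ ∈ D, ρ δ = ρ g)
    {R : Set G} (hRf : R.Finite) (hR : ∀ δ ∈ D, ∃ r ∈ R, r⁻¹ * δ ∈ D')
    (hirr : ∀ W : Submodule F (Fin 2 → F), (∀ g, ∀ w ∈ W, ac F ρ g w ∈ W) → W = ⊥ ∨ W = ⊤)
    {v : Fin 2 → F} (hv : v ≠ 0) (hD' : ∀ δ ∈ D', ∃ c : F, ac F ρ δ v = c • v) :
    (∃ S : Subgroup G, S.Normal ∧ S.FiniteIndex ∧ IsOpen (S : Set G) ∧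
      (∀ σ ∈ S, ∃ c : F, ∀ w, ac F ρ σ w = c • w)) ∨
    ∃ T : Subgroup G, T.index = 2 ∧ IsOpen (T : Set G) ∧ ∀ σ ∈ T, ∃ c : F, ac F ρ σ v = c • v := by
  have hWf : (sl ρ hv).FiniteIndex := by
    have : Finite R := hRf
    have hsur : ∀ g : G, ∃ r : R, (r : G)⁻¹ * g ∈ sl ρ hv := by
      intro g
      obtain ⟨δ, hδ, hδg⟩ := hsurj g
      obtain ⟨r, hr, hrδ⟩ := hR δ hδ
      refine ⟨⟨r, hr⟩, ?_⟩
      obtain ⟨c, hc⟩ := hD' _ hrδ
      refine ⟨c, ?_⟩
      rw [← hc, ac_apply, ac_apply]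
      show ((ρ (r⁻¹ * g) : Matrix (Fin 2) (Fin 2) A).map (algebraMap A F)) *ᵥ v = _
      rw [map_mul, map_mul, hδg]
    have hfin : Finite (G ⧸ sl ρ hv) := by
      refine Finite.of_surjective (fun r : R => (QuotientGroup.mk (r : G) : G ⧸ sl ρ hv)) ?_
      intro x
      obtain ⟨g, rfl⟩ := QuotientGroup.mk_surjective x
      obtain ⟨r, hr⟩ := hsur g
      exact ⟨r, QuotientGroup.eq.2 hr⟩
    exact Subgroup.finiteIndex_of_finite_quotient
  have hWc := sl_closed hA hρ hv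
  have hTo : IsOpen (sl ρ hv : Set G) := Subgroup.isOpen_of_isClosed_of_finiteIndex _ hWc
  have hTe : ∀ σ ∈ sl ρ hv, ∃ c : F, ac F ρ σ v = c • v := fun σ hσ => hσ
  have heig : ∀ σ ∈ (sl ρ hv).normalCore, ∀ g : G, ∃ c : F,
      ac F ρ σ (ac F ρ g v) = c • ac F ρ g v := by
    intro σ hσ g
    have h1 : g⁻¹ * σ * g ∈ sl ρ hv := by
      have := hσ g⁻¹
      rwa [inv_inv] at this
    obtain ⟨c, hc⟩ := hTe _ h1
    refine ⟨c, ?_⟩
    rw [← ac_mul]
    have e : σ * g = g * (g⁻¹ * σ * g) := by group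
    rw [e, ac_mul, hc, map_smul]
  -- an element which moves the line
  obtain ⟨g, hg⟩ : ∃ g, g ∉ sl ρ hv := by
    by_contra hcon
    push Not at hcon
    rcases hirr (Submodule.span F {v}) (fun g w hw => by
      obtain ⟨a, rfl⟩ := Submodule.mem_span_singleton.1 hw
      obtain ⟨c, hc⟩ := hcon g
      rw [map_smul, hc]
      exact Submodule.smul_mem _ _ (Submodule.smul_mem _ _ (Submodule.mem_span_singleton_self v))) with h | h
    · apply hv
      rw [Submodule.span_singleton_eq_bot] at h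
      exact h
    · have h1 : Module.finrank F (Submodule.span F {v}) = 1 := finrank_span_singleton hv
      rw [h, finrank_top, Module.finrank_fin_fun] at h1
      omega
  have hgv : ∀ a : F, ac F ρ g v ≠ a • v := fun a h => hg ⟨a, h⟩
  set w : Fin 2 → F := ac F ρ g v with hw
  have hli : LinearIndependent F ![v, w] := by
    rw [LinearIndependent.pair_iff' hv]
    intro a ha
    exact hgv a ha.symm
  have hspan : ∀ u : Fin 2 → F, ∃ a b : F, u = a • v + b • w := by
    intro u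
    have h1 : Submodule.span F (Set.range ![v, w]) = ⊤ :=
      hli.span_eq_top_of_card_eq_finrank (by simp)
    have h2 : u ∈ Submodule.span F (Set.range ![v, w]) := by rw [h1]; trivial
    rw [Matrix.range_cons, Matrix.range_cons, Matrix.range_empty, Set.union_empty,
      Set.singleton_union, Submodule.mem_span_pair] at h2
    obtain ⟨a, b, hab⟩ := h2
    exact ⟨a, b, hab.symm⟩
  by_cases hsc : ∀ σ ∈ (sl ρ hv).normalCore, ∃ c : F, ∀ u, ac F ρ σ u = c • u
  · exact Or.inl ⟨(sl ρ hv).normalCore, (sl ρ hv).normalCore_normal, inferInstance,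
      Subgroup.isOpen_of_isClosed_of_finiteIndex _ ((sl ρ hv).normalCore_isClosed hWc), hsc⟩
  · right
    push Not at hsc
    obtain ⟨σ, hσ, hσc⟩ := hsc
    obtain ⟨a, ha⟩ := heig σ hσ 1
    rw [ac_one] at ha
    obtain ⟨b, hb⟩ := heig σ hσ g
    rw [← hw] at hb
    have hab : a ≠ b := by
      rintro rfl
      obtain ⟨u, hu⟩ := hσc a
      apply hu
      obtain ⟨x, y, rfl⟩ := hspan u
      rw [map_add, map_smul, map_smul, ha, hb, smul_add, smul_comm x, smul_comm y]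
    refine ⟨sl ρ hv, ?_, hTo, hTe⟩
    rw [Subgroup.index_eq_two_iff']
    refine ⟨g⁻¹, fun h => ?_⟩
    obtain ⟨c, hc⟩ := heig σ hσ h
    obtain ⟨x, y, hxy⟩ := hspan (ac F ρ h v)
    rw [hxy, map_add, map_smul, map_smul, ha, hb] at hc
    have h1 : (x * (a - c)) • v + (y * (b - c)) • w = 0 := by
      have : x • a • v + y • b • w - c • (x • v + y • w) = 0 := sub_eq_zero.2 hc
      rw [← this]
      simp only [smul_smul, smul_add, mul_sub, sub_smul]
      rw [mul_comm c x, mul_comm c y]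
      abel
    have h2 := LinearIndependent.pair_iff.1 hli _ _ h1
    have hnot : ¬ (g⁻¹ * h ∈ sl ρ hv ∧ h ∈ sl ρ hv) := by
      rintro ⟨h3, h4⟩
      apply hg
      have := mul_mem h4 (inv_mem h3)
      rwa [_root_.mul_inv_rev, inv_inv, mul_inv_cancel_left] at this
    rcases mul_eq_zero.1 h2.1 with hx | hx
    · -- the vector is a multiple of `w`
      have h3 : g⁻¹ * h ∈ sl ρ hv := by
        refine ⟨y, ?_⟩
        rw [ac_mul, hxy, hx, zero_smul, zero_add, map_smul, hw, ← ac_mul, inv_mul_cancel, ac_one]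
      exact Or.inl ⟨h3, fun h4 => hnot ⟨h3, h4⟩⟩
    · rcases mul_eq_zero.1 h2.2 with hy | hy
      · have h3 : h ∈ sl ρ hv := by
          refine ⟨x, ?_⟩
          rw [hxy, hy, zero_smul, add_zero]
        exact Or.inr ⟨h3, fun h4 => hnot ⟨h4, h3⟩⟩
      · exact absurd ((sub_eq_zero.1 hx).trans (sub_eq_zero.1 hy).symm) hab

end dih

end Pool.Agent.W5h93.FMR
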