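import Pool.Agent.W5h93.FMR.Main
import Pool.Agent.W5h93.FMR.Dih

/-! Assembly. -/

set_option autoImplicit false
set_option linter.all false

namespace Pool.Agent.W5h93.FMR

open NumberField Pool.Agent.W569.FM Pool.Agent.W569.UF Pool.Agent.W134.FM Pool.Agent.W5h93.FMP
open Pool.Agent.Z384 IsLocalRing Matrix Pool.Agent.W5h93.FMQ

theorem Dc_closed (P : Ideal (OO ℚ)) : IsClosed (Dc P : Set (GF ℚ)) := by
  have e : (Dc P : Set (GF ℚ)) = ⋂ x : OO ℚ, {g : GF ℚ | g • x ∈ P ↔ x ∈ P} := by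
    ext g
    rw [Set.mem_iInter]
    rfl
  rw [e]
  refine isClosed_iInter fun x => ?_
  rw [← isOpen_compl_iff, isOpen_iff_mem_nhds]
  intro g hg
  have ho : IsOpen ((fun τ : GF ℚ => g⁻¹ * τ) ⁻¹'
      (MulAction.stabilizer (GF ℚ) (x : AlgebraicClosure ℚ) : Set (GF ℚ))) :=
    (isOpen_stab (x : AlgebraicClosure ℚ)).preimage (continuous_const.mul continuous_id)
  refine Filter.mem_of_superset (ho.mem_nhds ?_) ?_
  · show g⁻¹ * g ∈ MulAction.stabilizer (GF ℚ) (x : AlgebraicClosure ℚ)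
    rw [inv_mul_cancel]
    exact one_mem _
  · intro τ hτ hτ2
    apply hg
    have h1 : (g⁻¹ * τ) • (x : AlgebraicClosure ℚ) = (x : AlgebraicClosure ℚ) := hτ
    have h2 : (g⁻¹ * τ) • x = x := RingOfIntegers.ext h1
    have h3 : τ • x = g • x := by
      rw [mul_smul, inv_smul_eq_iff] at h2
      exact h2
    show g • x ∈ P ↔ x ∈ P
    rw [← h3]
    exact hτ2

/-- from density to surjectivity -/
theorem surj_of_dense {A : Type*} [CommRing A] [IsLocalRing A] [IsNoetherianRing A]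
    [TopologicalSpace A] {n : ℕ} (hA : IsAdic (maximalIdeal A)) {ρ : GF ℚ →* GL (Fin n) A}
    (hρ : ∀ i j, Continuous fun σ => (ρ σ : Matrix (Fin n) (Fin n) A) i j) {D : Subgroup (GF ℚ)}
    (hDc : IsClosed (D : Set (GF ℚ)))
    (happ : ∀ (m : ℕ) (g : GF ℚ), ∃ δ ∈ D, δ⁻¹ * g ∈ cong ρ m) (g : GF ℚ) :
    ∃ δ ∈ D, ρ δ = ρ g := by
  let T : ℕ → Set (GF ℚ) := fun m => {δ | δ ∈ D ∧ δ⁻¹ * g ∈ cong ρ m}
  have hTc : ∀ m, IsClosed (T m) := by
    intro m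
    refine IsClosed.inter hDc ?_
    have h1 : IsClosed (cong ρ m : Set (GF ℚ)) := Subgroup.isClosed_of_isOpen _ (cong_open hA hρ m)
    exact h1.preimage (continuous_inv.mul continuous_const)
  have hmono : ∀ m, T (m + 1) ⊆ T m := by
    rintro m δ ⟨h1, h2⟩
    refine ⟨h1, ?_⟩
    rw [mem_cong] at h2 ⊢
    exact h2.mono (Ideal.pow_le_pow_right (Nat.le_succ m))
  have hne : (⋂ m, T m).Nonempty := by
    refine IsCompact.nonempty_iInter_of_sequence_nonempty_isCompact_isClosed T hmono ?_ ?_ hTc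
    · intro m
      obtain ⟨δ, h1, h2⟩ := happ m g
      exact ⟨δ, h1, h2⟩
    · exact (hTc 0).isCompact
  obtain ⟨δ, hδ⟩ := hne
  have hδ' : ∀ m, δ ∈ T m := fun m => Set.mem_iInter.1 hδ m
  refine ⟨δ, (hδ' 0).1, ?_⟩
  have h1 : ((ρ (δ⁻¹ * g) : GL (Fin n) A) : Matrix (Fin n) (Fin n) A) - 1 = 0 := by
    ext i j
    have h2 : (((ρ (δ⁻¹ * g) : GL (Fin n) A) : Matrix (Fin n) (Fin n) A) - 1) i j ∈
        (⨅ m : ℕ, maximalIdeal A ^ m : Ideal A) := by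
      rw [Ideal.mem_iInf]
      intro m
      exact mem_cong.1 (hδ' m).2 i j
    rw [Ideal.iInf_pow_eq_bot_of_isLocalRing _ (Ideal.IsPrime.ne_top inferInstance)] at h2
    exact h2
  have h2 : ρ (δ⁻¹ * g) = 1 := Units.ext (sub_eq_zero.1 h1)
  rw [map_mul, map_inv] at h2
  exact inv_mul_eq_one.1 h2

variable {A : Type} [CommRing A] [IsLocalRing A] [IsNoetherianRing A] [TopologicalSpace A]
variable {p : ℕ} [hp : Fact p.Prime]

theorem onto (hA : IsAdic (maximalIdeal A)) (hfin : Finite (ResidueField A))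
    (hpA : (p : A) ∈ maximalIdeal A) {ρ : GF ℚ →* GL (Fin 2) A}
    (hρ : ∀ i j, Continuous fun σ => (ρ σ : Matrix (Fin 2) (Fin 2) A) i j)
    {P₀ : Ideal (OO ℚ)} (hP₀ : P₀.IsMaximal) (hpP₀ : (p : OO ℚ) ∈ P₀)
    {D : Subgroup (GF ℚ)} (hDc : IsClosed (D : Set (GF ℚ))) (hID : Ic P₀ ≤ D) (hDD : D ≤ Dc P₀)
    (r : GF ℚ →* (ResidueField A)ˣ) (hrD : ∀ g, ∃ δ ∈ D, r δ = r g)
    (hres : ∀ σ, residue A (ρ σ : Matrix (Fin 2) (Fin 2) A).trace = 1 + (r σ : ResidueField A) ∧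
      residue A (ρ σ : Matrix (Fin 2) (Fin 2) A).det = (r σ : ResidueField A))
    {S : Set ℕ} (hS : ∀ l ∈ S, l.Prime ∧ l ≠ p ∧ (l : ResidueField A) ≠ 1 ∧
      ∀ Q : Ideal (OO ℚ), Q.IsMaximal → (l : OO ℚ) ∈ Q →
        (∃ φ, FrobAt l Q φ ∧ (r φ : ResidueField A) ≠ l) ∧
        ∃ φ, FrobAt l Q φ ∧ (r φ : ResidueField A) * l ≠ 1)
    (hur : ∀ Q : Ideal (OO ℚ), Q.IsMaximal → (p : OO ℚ) ∉ Q → (∀ l ∈ S, (l : OO ℚ) ∉ Q) →
      ∀ τ, InInertia Q τ → ρ τ = 1)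
    (hc1 : NoComp r r) (hc2 : NoComp r r⁻¹) (g : GF ℚ) : ∃ δ ∈ D, ρ δ = ρ g := by
  refine surj_of_dense hA hρ hDc (fun m g => ?_) g
  refine dense2 (p := p) hA hfin hpA hρ r.ker D (fun g => ?_) (fun σ hσ => ?_) m
    (key (p := p) hA hfin hpA hρ hP₀ hpP₀ hID hDD r hrD hres hS hur hc1 hc2 m) g
  · obtain ⟨δ, hδ, hδg⟩ := hrD g
    refine ⟨δ, hδ, ?_⟩
    rw [MonoidHom.mem_ker, map_mul, map_inv, hδg, inv_mul_cancel]
  · refine ⟨2, ?_⟩
    have hker : ∀ σ ∈ r.ker, (ρ σ : Matrix (Fin 2) (Fin 2) A).trace - 2 ∈ maximalIdeal A ∧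
        (ρ σ : Matrix (Fin 2) (Fin 2) A).det - 1 ∈ maximalIdeal A := by
      intro σ hσ
      have h3 := hres σ
      have h4 : (r σ : ResidueField A) = 1 := by
        rw [MonoidHom.mem_ker.1 hσ, Units.val_one]
      rw [h4] at h3
      constructor
      · rw [← residue_eq_zero_iff, map_sub, h3.1, map_ofNat]
        norm_num
      · rw [← residue_eq_zero_iff, map_sub, h3.2, map_one, sub_self]
    rw [pow_two]
    refine unip_mul (hker σ hσ).1 (hker σ hσ).2 (hker σ hσ).1 (hker σ hσ).2 ?_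
    have := (hker (σ * σ) (mul_mem hσ hσ)).1
    rwa [map_mul, Units.val_mul] at this

end Pool.Agent.W5h93.FMR
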