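import Pool.Agent.W5h93.FMR.Fin

/-! Arbitrary residual representations. -/

set_option autoImplicit false
set_option linter.all false

namespace Pool.Agent.W5h93.FMR

open NumberField Pool.Agent.W569.FM Pool.Agent.W569.UF Pool.Agent.W134.FM Pool.Agent.W5h93.FMP
open Pool.Agent.Z384 IsLocalRing Matrix Pool.Agent.W5h93.FMQ

section poly

open Polynomial

/-- the polynomial of the adjoint action -/
noncomputable def adp {k : Type*} [CommRing k] (t d : k) : k[X] :=
  C d * X ^ 4 - C (t ^ 2) * X ^ 3 + C (2 * (t ^ 2 - d)) * X ^ 2 - C (t ^ 2) * X + C d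

theorem adp_eval {k : Type*} [CommRing k] (t d x : k) :
    (adp t d).eval x = (x - 1) ^ 2 * (d * (x + 1) ^ 2 - t ^ 2 * x) := by
  simp only [adp, eval_add, eval_sub, eval_mul, eval_C, eval_pow, eval_X]
  ring

theorem exists_poly2 {k : Type*} [Field k] [Finite k] (p : ℕ) [Fact p.Prime] [CharP k p] (F : k[X])
    (l : ℕ) (hF : F.eval (l : k) ≠ 0) :
    ∃ Q : Polynomial ℤ, F ∣ Q.map (Int.castRingHom k) ∧
      (Q.map (Int.castRingHom (ZMod p))).eval (l : ZMod p) ≠ 0 := by
  letI : Algebra (ZMod p) k := ZMod.algebra k p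
  have hF0 : F ≠ 0 := by
    rintro rfl
    exact hF eval_zero
  haveI : Module.Finite k (AdjoinRoot F) := (AdjoinRoot.powerBasis hF0).finite
  haveI : Module.Finite (ZMod p) k := Module.Finite.of_finite
  haveI : Module.Finite (ZMod p) (AdjoinRoot F) := Module.Finite.trans k _
  set x : AdjoinRoot F := AdjoinRoot.root F with hx
  have hint : IsIntegral (ZMod p) x := Algebra.IsIntegral.isIntegral x
  set m := minpoly (ZMod p) x with hm
  obtain ⟨Q, hQ⟩ := Polynomial.map_surjective (Int.castRingHom (ZMod p)) ZMod.intCast_surjective m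
  have hQk : Q.map (Int.castRingHom k) = m.map (algebraMap (ZMod p) k) := by
    have e : Int.castRingHom k = (algebraMap (ZMod p) k).comp (Int.castRingHom (ZMod p)) :=
      RingHom.ext_int _ _
    rw [e, ← Polynomial.map_map, hQ]
  have hmk : ∀ P : (ZMod p)[X], AdjoinRoot.mk F (P.map (algebraMap (ZMod p) k)) = aeval x P := by
    intro P
    rw [← Polynomial.aeval_map_algebraMap k x P, hx, AdjoinRoot.aeval_eq]
  refine ⟨Q, ?_, ?_⟩
  · rw [hQk, ← AdjoinRoot.mk_eq_zero, hmk]
    exact minpoly.aeval _ _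
  · rw [hQ]
    intro h0
    obtain ⟨m', hm'⟩ := Polynomial.dvd_iff_isRoot.2 h0
    have h1 : aeval x m = 0 := minpoly.aeval _ _
    rw [hm', map_mul] at h1
    -- `x - l` is a unit
    obtain ⟨y, hy⟩ : ∃ y : AdjoinRoot F, y * aeval x (X - C (l : ZMod p)) = 1 := by
      have hcop : IsCoprime (X - C (l : k)) F := by
        rw [Polynomial.isCoprime_iff_aeval_ne_zero_of_isAlgClosed k (AlgebraicClosure k)]
        intro a
        by_cases ha : a = algebraMap k (AlgebraicClosure k) (l : k)
        · right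
          rw [ha, Polynomial.aeval_algebraMap_apply, Polynomial.coe_aeval_eq_eval]
          exact fun h => hF ((map_eq_zero_iff _ (algebraMap k (AlgebraicClosure k)).injective).1 h)
        · left
          rw [map_sub, aeval_X, aeval_C]
          exact sub_ne_zero.2 ha
      obtain ⟨a, b, hab⟩ := hcop
      refine ⟨AdjoinRoot.mk F a, ?_⟩
      rw [← hmk, ← map_mul]
      have e : (X - C (l : ZMod p)).map (algebraMap (ZMod p) k) = X - C (l : k) := by
        rw [Polynomial.map_sub, Polynomial.map_X, Polynomial.map_C, map_natCast]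
      rw [e, ← map_one (AdjoinRoot.mk F), ← hab, map_add, map_mul (AdjoinRoot.mk F) b F,
        AdjoinRoot.mk_self, mul_zero, add_zero]
    have h2 : aeval x m' = 0 := by
      have := congrArg (fun z => y * z) h1
      simp only [mul_zero] at this
      rwa [← mul_assoc, hy, one_mul] at this
    have h3 : m ∣ m' := minpoly.dvd _ _ h2
    have hm0 : m ≠ 0 := minpoly.ne_zero hint
    have hm'0 : m' ≠ 0 := by
      rintro rfl
      rw [mul_zero] at hm'
      exact hm0 hm'
    have h4 := Polynomial.degree_le_of_dvd h3 hm'0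
    have h5 : m.natDegree = 1 + m'.natDegree := by
      rw [hm', Polynomial.natDegree_mul (Polynomial.X_sub_C_ne_zero _) hm'0, Polynomial.natDegree_X_sub_C]
    have h6 := Polynomial.natDegree_le_of_dvd h3 hm'0
    omega

end poly

section kill

variable {A : Type*} [CommRing A] [IsLocalRing A]

open Polynomial in
/-- a polynomial which kills the conjugation -/
theorem kill2 {J : Ideal A} (X Y u : Matrix (Fin 2) (Fin 2) (A ⧸ J)) (hXY : X * Y = 1) (hYX : Y * X = 1)
    (hu : ∀ x ∈ maximalIdeal A, x • u = 0) (δ t : A) (ht : Ideal.Quotient.mk J t = X.trace)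
    (hδ : Ideal.Quotient.mk J δ = X.det) (Q : Polynomial ℤ)
    (hQ : adp (residue A t) (residue A δ) ∣ Q.map (Int.castRingHom (ResidueField A))) :
    ∑ i ∈ Finset.range (Q.natDegree + 1), Q.coeff i • (X ^ i * u * Y ^ i) = 0 := by
  let T : Module.End A (Matrix (Fin 2) (Fin 2) (A ⧸ J)) :=
    (LinearMap.mulLeft A X) ∘ₗ (LinearMap.mulRight A Y)
  have hT : ∀ (i : ℕ) (v : Matrix (Fin 2) (Fin 2) (A ⧸ J)), (T ^ i) v = X ^ i * v * Y ^ i := by
    intro i
    induction i with
    | zero => intro v; simp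
    | succ i ih =>
      intro v
      rw [pow_succ, Module.End.mul_apply, ih]
      show X ^ i * (X * (v * Y)) * Y ^ i = _
      rw [pow_succ, pow_succ' Y]
      simp only [mul_assoc]
  have hYXi : ∀ i : ℕ, Y ^ i * X ^ i = 1 := by
    intro i
    induction i with
    | zero => simp
    | succ i ih => rw [pow_succ, pow_succ', mul_assoc, ← mul_assoc Y, hYX, one_mul, ih]
  have hXYi : ∀ i : ℕ, X ^ i * Y ^ i = 1 := by
    intro i
    induction i with
    | zero => simp
    | succ i ih => rw [pow_succ, pow_succ', mul_assoc, ← mul_assoc X, hXY, one_mul, ih]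
  have hsm : ∀ (a : A) (v : Matrix (Fin 2) (Fin 2) (A ⧸ J)), a • v = (Ideal.Quotient.mk J a) • v := by
    intro a v
    rw [← Ideal.Quotient.algebraMap_eq, algebraMap_smul]
  -- the exact identity
  let CA : A[X] := adp t δ
  have hCA : ∀ v, (aeval T CA) v = 0 := by
    intro v
    have e : (aeval T CA) v = δ • (X ^ 4 * v * Y ^ 4) - (t ^ 2) • (X ^ 3 * v * Y ^ 3) +
        (2 * (t ^ 2 - δ)) • (X ^ 2 * v * Y ^ 2) - (t ^ 2) • (X ^ 1 * v * Y ^ 1) + δ • v := by
      simp only [CA, adp, map_add, map_sub, map_mul, aeval_C, map_pow, aeval_X, LinearMap.add_apply,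
        LinearMap.sub_apply, Module.End.mul_apply, Module.algebraMap_end_apply, hT]
      rw [show T v = X ^ 1 * v * Y ^ 1 by rw [← hT, pow_one]]
      simp only [← map_pow, Module.algebraMap_end_apply]
      module
    rw [e]
    have hid := mat_id X v
    have h2 : (δ • (X ^ 4 * v * Y ^ 4) - (t ^ 2) • (X ^ 3 * v * Y ^ 3) +
        (2 * (t ^ 2 - δ)) • (X ^ 2 * v * Y ^ 2) - (t ^ 2) • (X ^ 1 * v * Y ^ 1) + δ • v) * X ^ 4 = 0 := by
      simp only [hsm, add_mul, sub_mul, smul_mul_assoc, map_mul, map_pow, map_sub, map_ofNat]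
      rw [ht, hδ]
      have k4 : X ^ 4 * v * Y ^ 4 * X ^ 4 = X ^ 4 * v := by
        rw [mul_assoc _ (Y ^ 4), hYXi, mul_one]
      have k3 : X ^ 3 * v * Y ^ 3 * X ^ 4 = X ^ 3 * v * X := by
        rw [pow_succ X 3, mul_assoc _ (Y ^ 3), ← mul_assoc (Y ^ 3), hYXi, one_mul]
      have k2 : X ^ 2 * v * Y ^ 2 * X ^ 4 = X ^ 2 * v * X ^ 2 := by
        rw [show X ^ 4 = X ^ 2 * X ^ 2 by rw [← pow_add], mul_assoc _ (Y ^ 2), ← mul_assoc (Y ^ 2),
          hYXi, one_mul]
      have k1 : X ^ 1 * v * Y ^ 1 * X ^ 4 = X * v * X ^ 3 := by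
        rw [show X ^ 4 = X ^ 1 * X ^ 3 by rw [← pow_add], mul_assoc _ (Y ^ 1), ← mul_assoc (Y ^ 1),
          hYXi, one_mul, pow_one]
      rw [k4, k3, k2, k1]
      exact hid
    have h3 := congrArg (fun Z => Z * Y ^ 4) h2
    simp only [zero_mul] at h3
    rwa [mul_assoc, hXYi, mul_one] at h3
  have hCk : CA.map (residue A) = adp (residue A t) (residue A δ) := by
    simp only [CA, adp, Polynomial.map_add, Polynomial.map_sub, Polynomial.map_mul, Polynomial.map_pow,
      Polynomial.map_X, Polynomial.map_C, map_pow, map_mul, map_sub, map_ofNat,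
      Polynomial.map_ofNat]
  obtain ⟨Dk, hDk⟩ := hQ
  obtain ⟨D, hD⟩ := Polynomial.map_surjective (residue A) residue_surjective Dk
  let QA : A[X] := Q.map (Int.castRingHom A)
  have hQA : QA.map (residue A) = Q.map (Int.castRingHom (ResidueField A)) := by
    rw [Polynomial.map_map, RingHom.ext_int ((residue A).comp (Int.castRingHom A))
      (Int.castRingHom (ResidueField A))]
  have hE : (QA - CA * D).map (residue A) = 0 := by
    rw [Polynomial.map_sub, Polynomial.map_mul, hQA, hCk, hD, hDk, sub_self]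
  have hEu : (aeval T (QA - CA * D)) u = 0 := by
    rw [aeval_eq_sum_range, LinearMap.sum_apply]
    refine Finset.sum_eq_zero fun i _ => ?_
    rw [LinearMap.smul_apply, ← map_smul, hu, map_zero]
    have h1 := congrArg (fun P => P.coeff i) hE
    simp only [Polynomial.coeff_map, Polynomial.coeff_zero] at h1
    exact (residue_eq_zero_iff _).1 h1
  have hQu : (aeval T QA) u = 0 := by
    have e : QA = (QA - CA * D) + CA * D := by ring
    rw [e, map_add, LinearMap.add_apply, hEu, zero_add, map_mul, Module.End.mul_apply, hCA]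
  have h4 : (aeval T Q) u = 0 := by
    have e : (aeval T QA : Module.End A _) = aeval T Q := by
      show aeval T (Q.map (algebraMap ℤ A)) = aeval T Q
      exact Polynomial.aeval_map_algebraMap A T Q
    rw [← e]
    exact hQu
  rw [aeval_eq_sum_range, LinearMap.sum_apply] at h4
  rw [← h4]
  refine Finset.sum_congr rfl fun i _ => ?_
  rw [LinearMap.smul_apply, hT]

end kill

end Pool.Agent.W5h93.FMR
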