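import Pool.Agent.W5h93.FMR.Gen

/-! Arbitrary residual representations: tame primes and the conclusion. -/

set_option autoImplicit false
set_option linter.all false

namespace Pool.Agent.W5h93.FMR

open NumberField Pool.Agent.W569.FM Pool.Agent.W569.UF Pool.Agent.W134.FM Pool.Agent.W5h93.FMP
open Pool.Agent.Z384 IsLocalRing Matrix Pool.Agent.W5h93.FMQ

section step

variable {G : Type*} [Group G] {N : Subgroup G} [hN : N.Normal] {E : Type*} [CommGroup E]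

/-- a polynomial in the conjugation by `g` -/
noncomputable def op (g : G) (c : ℕ → ℤ) (d : ℕ) (h : N →* E) : N →* E :=
  ∏ i ∈ Finset.range d, (h.comp (MulAut.conjNormal (g ^ i) : MulAut N).toMonoidHom) ^ c i

theorem op_apply (g : G) (c : ℕ → ℤ) (d : ℕ) (h : N →* E) (σ : N) :
    op g c d h σ = ∏ i ∈ Finset.range d, h (MulAut.conjNormal (g ^ i) σ) ^ c i := by
  unfold op
  rw [MonoidHom.finset_prod_apply]
  rfl

variable {B : Type*} [CommRing B]

theorem lay_step (ρ : G →* GL (Fin 2) B) (M : Subgroup G) (g : G)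
    (hMg : ∀ σ ∈ M, g * σ * g⁻¹ ∈ M)
    (hadd : ∀ σ ∈ M, ∀ τ ∈ M, ((ρ σ : Matrix (Fin 2) (Fin 2) B) - 1) *
      ((ρ τ : Matrix (Fin 2) (Fin 2) B) - 1) = 0)
    (c : ℕ → ℤ) (d : ℕ)
    (h : N →* E)
    (hk : ∀ σ : N, (σ : G) ∈ M → ρ σ = 1 → h σ = 1) (σ : N) (hσ : (σ : G) ∈ M)
    (hQ : ∑ i ∈ Finset.range d, c i • ((ρ g : Matrix (Fin 2) (Fin 2) B) ^ i *
      ((ρ σ : Matrix (Fin 2) (Fin 2) B) - 1) *
      ((((ρ g)⁻¹ : GL (Fin 2) B) : Matrix (Fin 2) (Fin 2) B)) ^ i) = 0) :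
    op g c d h σ = 1 := by
  set X : Matrix (Fin 2) (Fin 2) B := (ρ g : Matrix (Fin 2) (Fin 2) B) with hX
  set Y : Matrix (Fin 2) (Fin 2) B := (((ρ g)⁻¹ : GL (Fin 2) B) : Matrix (Fin 2) (Fin 2) B) with hY
  have hXY : X * Y = 1 := Units.mul_inv _
  have hXYi : ∀ i : ℕ, X ^ i * Y ^ i = 1 := by
    intro i
    induction i with
    | zero => simp
    | succ i ih => rw [pow_succ, pow_succ', mul_assoc, ← mul_assoc X, hXY, one_mul, ih]
  let ad : M →* Multiplicative (Matrix (Fin 2) (Fin 2) B) :=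
    { toFun := fun σ => Multiplicative.ofAdd ((ρ σ : Matrix (Fin 2) (Fin 2) B) - 1)
      map_one' := by
        simp
      map_mul' := by
        intro σ τ
        rw [← ofAdd_add]
        congr 1
        have h1 := hadd σ σ.2 τ τ.2
        rw [Subgroup.coe_mul, map_mul, Units.val_mul]
        have h2 : (ρ (σ : G) : Matrix (Fin 2) (Fin 2) B) * (ρ (τ : G) : Matrix (Fin 2) (Fin 2) B) - 1 =
            ((ρ (σ : G) : Matrix (Fin 2) (Fin 2) B) - 1) + ((ρ (τ : G) : Matrix (Fin 2) (Fin 2) B) - 1) +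
            ((ρ (σ : G) : Matrix (Fin 2) (Fin 2) B) - 1) * ((ρ (τ : G) : Matrix (Fin 2) (Fin 2) B) - 1) := by
          noncomm_ring
        rw [h2, h1, add_zero] }
  have had : ∀ σ : M, Multiplicative.toAdd (ad σ) = (ρ σ : Matrix (Fin 2) (Fin 2) B) - 1 := fun σ => rfl
  have hMi : ∀ i : ℕ, g ^ i * σ * (g ^ i)⁻¹ ∈ M := by
    intro i
    induction i with
    | zero => simpa using hσ
    | succ i ih =>
      have := hMg _ ih
      have e : g * (g ^ i * σ * (g ^ i)⁻¹) * g⁻¹ = g ^ (i + 1) * σ * (g ^ (i + 1))⁻¹ := by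
        rw [pow_succ', _root_.mul_inv_rev]; group
      rwa [e] at this
  let s : ℕ → M := fun i => ⟨g ^ i * σ * (g ^ i)⁻¹, hMi i⟩
  set u : Matrix (Fin 2) (Fin 2) B := (ρ σ : Matrix (Fin 2) (Fin 2) B) - 1 with hu
  have hρY : ∀ i : ℕ, ((ρ (g ^ i)⁻¹ : GL (Fin 2) B) : Matrix (Fin 2) (Fin 2) B) = Y ^ i := by
    intro i
    rw [← inv_pow, map_pow, map_inv, Units.val_pow_eq_pow_val]
  have hads : ∀ i : ℕ, Multiplicative.toAdd (ad (s i)) = X ^ i * u * Y ^ i := by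
    intro i
    rw [had]
    show ((ρ (g ^ i * σ * (g ^ i)⁻¹) : GL (Fin 2) B) : Matrix (Fin 2) (Fin 2) B) - 1 = _
    rw [map_mul, map_mul, Units.val_mul, Units.val_mul, map_pow, Units.val_pow_eq_pow_val, hρY, hu,
      mul_sub, sub_mul, mul_one, hXYi]
  let s' : ℕ → N := fun i => MulAut.conjNormal (g ^ i) σ
  have hs' : ∀ i, ((s' i : N) : G) = (s i : G) := fun i => MulAut.conjNormal_apply _ _
  have main : ∀ d : ℕ, ∃ (t : M) (t' : N), (t' : G) = (t : G) ∧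
      Multiplicative.toAdd (ad t) = ∑ i ∈ Finset.range d, c i • (X ^ i * u * Y ^ i) ∧
      h t' = op g c d h σ := by
    intro d
    induction d with
    | zero =>
      refine ⟨1, 1, rfl, ?_, ?_⟩
      · rw [map_one, toAdd_one, Finset.range_zero, Finset.sum_empty]
      · rw [map_one, op_apply, Finset.range_zero, Finset.prod_empty]
    | succ d ih =>
      obtain ⟨t, t', h1, h2, h3⟩ := ih
      refine ⟨t * s d ^ c d, t' * s' d ^ c d, ?_, ?_, ?_⟩
      · rw [Subgroup.coe_mul, Subgroup.coe_mul, Subgroup.coe_zpow, Subgroup.coe_zpow, h1, hs']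
      · rw [map_mul, map_zpow, toAdd_mul, toAdd_zpow, h2, hads, Finset.sum_range_succ]
      · rw [map_mul, map_zpow, h3, op_apply, op_apply, Finset.prod_range_succ]
  obtain ⟨t, t', h1, h2, h3⟩ := main d
  rw [hQ, had] at h2
  have h4 : ρ (t : G) = 1 := Units.ext (sub_eq_zero.1 h2)
  rw [← h3]
  refine hk t' ?_ ?_
  · rw [h1]; exact t.2
  · rw [h1]; exact h4

end step

section desc

variable {A : Type*} [CommRing A] [IsLocalRing A] [IsNoetherianRing A]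
variable {G : Type*} [Group G] {N : Subgroup G} [hN : N.Normal] {E : Type*} [CommGroup E]

theorem op_desc (ρ : G →* GL (Fin 2) A) (g : G) (Q : Polynomial ℤ)
    (hQ : adp (residue A (ρ g : Matrix (Fin 2) (Fin 2) A).trace)
      (residue A (ρ g : Matrix (Fin 2) (Fin 2) A).det) ∣ Q.map (Int.castRingHom (ResidueField A)))
    (hun : ∀ σ ∈ N, (ρ σ : Matrix (Fin 2) (Fin 2) A).trace - 2 ∈ maximalIdeal A ∧
      (ρ σ : Matrix (Fin 2) (Fin 2) A).det - 1 ∈ maximalIdeal A)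
    (h : N →* E) (m : ℕ) (hm : ∀ σ : N, (σ : G) ∈ cong ρ (m + 1) → h σ = 1) (σ : N)
    (hσ : (σ : G) ∈ cong ρ m) : op g (fun i => Q.coeff i) (Q.natDegree + 1) h σ = 1 := by
  set J : Ideal A := maximalIdeal A ^ (m + 1) with hJ
  set π := (Ideal.Quotient.mk J) with hπ
  let ρ' : G →* GL (Fin 2) (A ⧸ J) := (GeneralLinearGroup.map (n := Fin 2) π).comp ρ
  have hρ' : ∀ σ, (ρ' σ : Matrix (Fin 2) (Fin 2) (A ⧸ J)) = π.mapMatrix (ρ σ : Matrix (Fin 2) (Fin 2) A) :=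
    fun σ => rfl
  have hρ1 : ∀ σ, (ρ' σ : Matrix (Fin 2) (Fin 2) (A ⧸ J)) - 1 =
      π.mapMatrix ((ρ σ : Matrix (Fin 2) (Fin 2) A) - 1) := by
    intro σ
    rw [hρ', map_sub, map_one]
  have htr' : (ρ' g : Matrix (Fin 2) (Fin 2) (A ⧸ J)).trace =
      π (ρ g : Matrix (Fin 2) (Fin 2) A).trace := by
    rw [hρ', Matrix.trace_fin_two, Matrix.trace_fin_two, map_add]
    rfl
  have hdet' : (ρ' g : Matrix (Fin 2) (Fin 2) (A ⧸ J)).det =
      π (ρ g : Matrix (Fin 2) (Fin 2) A).det := by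
    rw [hρ', Matrix.det_fin_two, Matrix.det_fin_two, map_sub, map_mul, map_mul]
    rfl
  have hMm : ∀ τ ∈ (N ⊓ cong ρ m : Subgroup G), InI (maximalIdeal A ^ m)
      ((ρ τ : Matrix (Fin 2) (Fin 2) A) - 1) := fun τ hτ => mem_cong.1 (Subgroup.mem_inf.1 hτ).2
  have hsm : ∀ x ∈ maximalIdeal A, ∀ τ ∈ (N ⊓ cong ρ m : Subgroup G),
      x • ((ρ' τ : Matrix (Fin 2) (Fin 2) (A ⧸ J)) - 1) = 0 := by
    intro x hx τ hτ
    rw [hρ1]
    ext i j
    rw [Matrix.smul_apply, Algebra.smul_def]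
    show π x * π (((ρ τ : Matrix (Fin 2) (Fin 2) A) - 1) i j) = 0
    rw [← map_mul]
    refine Ideal.Quotient.eq_zero_iff_mem.2 ?_
    rw [hJ, pow_succ']
    exact Ideal.mul_mem_mul hx (hMm τ hτ i j)
  have hadd : ∀ τ ∈ (N ⊓ cong ρ m : Subgroup G), ∀ τ' ∈ (N ⊓ cong ρ m : Subgroup G),
      ((ρ' τ : Matrix (Fin 2) (Fin 2) (A ⧸ J)) - 1) *
        ((ρ' τ' : Matrix (Fin 2) (Fin 2) (A ⧸ J)) - 1) = 0 := by
    intro τ hτ τ' hτ'
    rw [hρ1, hρ1, ← map_mul, ← inI_iff]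
    rcases Nat.eq_zero_or_pos m with hm0 | hm0
    · subst hm0
      rw [hJ, zero_add, pow_one]
      have h1 := (Subgroup.mem_inf.1 hτ).1
      have h2 := (Subgroup.mem_inf.1 hτ').1
      refine unip_mul (hun τ h1).1 (hun τ h1).2 (hun τ' h2).1 (hun τ' h2).2 ?_
      have := (hun (τ * τ') (mul_mem h1 h2)).1
      rwa [map_mul, Units.val_mul] at this
    · have := InI.mul (hMm τ hτ) (hMm τ' hτ')
      refine this.mono ?_
      rw [← pow_add]
      exact Ideal.pow_le_pow_right (by omega)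
  have hσM : (σ : G) ∈ (N ⊓ cong ρ m : Subgroup G) := Subgroup.mem_inf.2 ⟨σ.2, hσ⟩
  refine lay_step (N := N) ρ' (N ⊓ cong ρ m) g (fun τ hτ => ?_) hadd (fun i => Q.coeff i)
    (Q.natDegree + 1) h ?_ σ hσM ?_
  · refine Subgroup.mem_inf.2 ⟨hN.conj_mem _ (Subgroup.mem_inf.1 hτ).1 _, ?_⟩
    exact (cong_normal ρ m).conj_mem _ (Subgroup.mem_inf.1 hτ).2 _
  · intro τ hτ hτ1
    refine hm τ (mem_cong.2 ?_)
    rw [inI_iff]
    have := hρ1 (τ : G)
    rw [hτ1, Units.val_one, sub_self] at this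
    exact this.symm
  · exact kill2 _ _ _ (Units.mul_inv _) (Units.inv_mul _) (fun x hx => hsm x hx σ hσM) _ _ htr'.symm
      hdet'.symm Q hQ

end desc

section arith

variable {A : Type} [CommRing A] [IsLocalRing A] [IsNoetherianRing A] [TopologicalSpace A]
variable {p : ℕ} [hp : Fact p.Prime]

/-- inertia at a tame prime -/
theorem tame_gen (hA : IsAdic (maximalIdeal A)) (hfin : Finite (ResidueField A))
    (hpA : (p : A) ∈ maximalIdeal A) {ρ : GF ℚ →* GL (Fin 2) A}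
    (hρ : ∀ i j, Continuous fun σ => (ρ σ : Matrix (Fin 2) (Fin 2) A) i j)
    {N : Subgroup (GF ℚ)} [hN : N.Normal] (hNo : IsOpen (N : Set (GF ℚ)))
    (hun : ∀ σ ∈ N, (ρ σ : Matrix (Fin 2) (Fin 2) A).trace - 2 ∈ maximalIdeal A ∧
      (ρ σ : Matrix (Fin 2) (Fin 2) A).det - 1 ∈ maximalIdeal A)
    {l : ℕ} (hl : l.Prime) (hlp : l ≠ p) {P : Ideal (OO ℚ)} (hP : P.IsMaximal) (hlP : (l : OO ℚ) ∈ P)
    {φ : GF ℚ} (hφ : FrobAt l P φ) (hl1 : (l : ResidueField A) ≠ 1)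
    (hne : residue A (ρ φ : Matrix (Fin 2) (Fin 2) A).det * ((l : ResidueField A) + 1) ^ 2 ≠
      residue A (ρ φ : Matrix (Fin 2) (Fin 2) A).trace ^ 2 * (l : ResidueField A)) (m : ℕ) :
    ∀ h : N →* Multiplicative (ZMod p), (∀ σ : N, (σ : GF ℚ) ∈ cong ρ m → h σ = 1) →
      ∀ τ : N, InInertia P (τ : GF ℚ) → h τ = 1 := by
  have hchar := charP_residue p hpA
  obtain ⟨Q, hQ1, hQ2⟩ := exists_poly2 p (adp (residue A (ρ φ : Matrix (Fin 2) (Fin 2) A).trace)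
    (residue A (ρ φ : Matrix (Fin 2) (Fin 2) A).det)) l (by
      rw [adp_eval]
      exact mul_ne_zero (pow_ne_zero _ (sub_ne_zero.2 hl1)) (sub_ne_zero.2 hne))
  induction m with
  | zero =>
    intro h hm τ _
    refine hm τ (mem_cong.2 fun i j => ?_)
    rw [pow_zero, Ideal.one_eq_top]
    trivial
  | succ m ih =>
    intro h hm τ hτ
    have h1 := ih (op φ (fun i => Q.coeff i) (Q.natDegree + 1) h)
      (fun σ hσ => op_desc ρ φ Q hQ1 hun h m hm σ hσ) τ hτ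
    have ho : IsOpen (h.ker : Set N) := by
      have h3 : IsOpen (((cong ρ (m + 1)).subgroupOf N : Subgroup N) : Set N) :=
        (cong_open hA hρ (m + 1)).preimage continuous_subtype_val
      refine Subgroup.isOpen_mono ?_ h3
      intro σ hσ
      exact hm σ (Subgroup.mem_subgroupOf.1 hσ)
    have hfin : Finite (Multiplicative (ZMod p)) := by
      have : NeZero p := ⟨hp.out.ne_zero⟩
      exact Finite.of_equiv _ Multiplicative.ofAdd
    have hpg : IsPGroup p (Multiplicative (ZMod p)) := by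
      refine IsPGroup.iff_card.2 ⟨1, ?_⟩
      rw [Nat.card_congr Multiplicative.toAdd, Nat.card_zmod, pow_one]
    have hconj : ∀ i : ℕ, InInertia P ((MulAut.conjNormal (φ ^ i) τ : N) : GF ℚ) ∧
        h (MulAut.conjNormal (φ ^ i) τ) = h τ ^ (l ^ i) := by
      intro i
      induction i with
      | zero =>
        rw [pow_zero, map_one, MulAut.one_apply, pow_zero, pow_one]
        exact ⟨hτ, rfl⟩
      | succ i ih =>
        obtain ⟨ih1, ih2⟩ := ih
        have h2 := tamen p l l hp.out hl (Ne.symm hlp) hl.one_lt.le N hNo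
          (Multiplicative (ZMod p)) hpg h ho P hP hlP (MulAut.conjNormal (φ ^ i) τ) φ ih1 hφ
        have e : (MulAut.conjNormal (φ ^ (i + 1)) τ : N) = ⟨φ * (MulAut.conjNormal (φ ^ i) τ : N) * φ⁻¹,
            hN.conj_mem _ (MulAut.conjNormal (φ ^ i) τ).2 φ⟩ := by
          rw [pow_succ', map_mul, MulAut.mul_apply]
          exact Subtype.ext (MulAut.conjNormal_apply _ _)
        rw [e]
        refine ⟨?_, ?_⟩
        · exact inertia_conj ih1 (frob_mem hP.isPrime hl.pos hφ)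
        · rw [h2, ih2, ← pow_mul, ← pow_succ]
    have h4 : Multiplicative.toAdd (op φ (fun i => Q.coeff i) (Q.natDegree + 1) h τ) =
        (Q.map (Int.castRingHom (ZMod p))).eval (l : ZMod p) * Multiplicative.toAdd (h τ) := by
      rw [op_apply, toAdd_prod, Polynomial.eval_map, Polynomial.eval₂_eq_sum_range, Finset.sum_mul]
      refine Finset.sum_congr rfl fun i _ => ?_
      rw [toAdd_zpow, (hconj i).2, toAdd_pow, zsmul_eq_mul, nsmul_eq_mul, mul_assoc]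
      push_cast
      rfl
    rw [h1, toAdd_one] at h4
    exact one_of_toAdd ((mul_eq_zero.1 h4.symm).resolve_left hQ2)

/-- **Arbitrary residual representations.** -/
theorem onto_gen (hA : IsAdic (maximalIdeal A)) (hfin : Finite (ResidueField A))
    (hpA : (p : A) ∈ maximalIdeal A) {ρ : GF ℚ →* GL (Fin 2) A}
    (hρ : ∀ i j, Continuous fun σ => (ρ σ : Matrix (Fin 2) (Fin 2) A) i j)
    {P₀ : Ideal (OO ℚ)} (hP₀ : P₀.IsMaximal) (hpP₀ : (p : OO ℚ) ∈ P₀)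
    {D : Subgroup (GF ℚ)} (hDc : IsClosed (D : Set (GF ℚ))) (hID : Ic P₀ ≤ D) (hDD : D ≤ Dc P₀)
    {N : Subgroup (GF ℚ)} [hN : N.Normal] (hNo : IsOpen (N : Set (GF ℚ)))
    (hun : ∀ σ ∈ N, (ρ σ : Matrix (Fin 2) (Fin 2) A).trace - 2 ∈ maximalIdeal A ∧
      (ρ σ : Matrix (Fin 2) (Fin 2) A).det - 1 ∈ maximalIdeal A)
    (hDN : ∀ g, ∃ δ ∈ D, δ⁻¹ * g ∈ N)
    {S : Set ℕ} (hS : ∀ l ∈ S, l.Prime ∧ l ≠ p ∧ (l : ResidueField A) ≠ 1 ∧
      ∀ Q : Ideal (OO ℚ), Q.IsMaximal → (l : OO ℚ) ∈ Q → ∃ φ, FrobAt l Q φ ∧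
        residue A (ρ φ : Matrix (Fin 2) (Fin 2) A).det * ((l : ResidueField A) + 1) ^ 2 ≠
          residue A (ρ φ : Matrix (Fin 2) (Fin 2) A).trace ^ 2 * (l : ResidueField A))
    (hur : ∀ Q : Ideal (OO ℚ), Q.IsMaximal → (p : OO ℚ) ∉ Q → (∀ l ∈ S, (l : OO ℚ) ∉ Q) →
      ∀ τ, InInertia Q τ → ρ τ = 1)
    (hcl : ∀ h : N →* Multiplicative (ZMod p), IsOpen (h.ker : Set N) →
      (∀ P : Ideal (OO ℚ), P.IsMaximal → ∀ τ : N, InInertia P (τ : GF ℚ) → h τ = 1) → ∀ σ, h σ = 1)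
    (g : GF ℚ) : ∃ δ ∈ D, ρ δ = ρ g := by
  have hFROB : S_FROB := Pool.Agent.W571.FM.main
  refine surj_of_dense hA hρ hDc (fun m g => ?_) g
  refine dense2 (p := p) hA hfin hpA hρ N D hDN (fun σ hσ => ?_) m ?_ g
  · refine ⟨2, ?_⟩
    rw [pow_two]
    refine unip_mul (hun σ hσ).1 (hun σ hσ).2 (hun σ hσ).1 (hun σ hσ).2 ?_
    have := (hun (σ * σ) (mul_mem hσ hσ)).1
    rwa [map_mul, Units.val_mul] at this
  · intro h h1 h2
    have ho : IsOpen (h.ker : Set N) := by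
      have h3 : IsOpen (((cong ρ m).subgroupOf N : Subgroup N) : Set N) :=
        (cong_open hA hρ m).preimage continuous_subtype_val
      refine Subgroup.isOpen_mono ?_ h3
      intro σ hσ
      exact h1 σ (Subgroup.mem_subgroupOf.1 hσ)
    refine hcl h ho fun P hP τ hτ => ?_
    by_cases hpP : (p : OO ℚ) ∈ P
    · obtain ⟨g, hg⟩ := (hFROB p hp.out).2 P₀ P hP₀ hP hpP₀ hpP
      have h3 := hg τ hτ
      obtain ⟨δ, hδ, hδg⟩ := hDN g⁻¹
      set u : GF ℚ := δ⁻¹ * g⁻¹ with hu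
      have h4 : InInertia P₀ (u * τ * u⁻¹) := by
        have h5 := inertia_conj h3 (inv_mem (hDD hδ))
        have e : δ⁻¹ * (g⁻¹ * (τ : GF ℚ) * g) * δ⁻¹⁻¹ = u * τ * u⁻¹ := by
          rw [hu]; group
        rwa [e] at h5
      let u' : N := ⟨u, hδg⟩
      have h6 : h (u' * τ * u'⁻¹) = 1 := h2 _ (hID h4)
      rw [map_mul, map_mul, map_inv, mul_comm (h u'), mul_inv_cancel_right] at h6
      exact h6
    · by_cases hSP : ∃ l ∈ S, (l : OO ℚ) ∈ P
      · obtain ⟨l, hl, hlP⟩ := hSP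
        obtain ⟨hl1, hl2, hl3, hl4⟩ := hS l hl
        obtain ⟨φ, hφ1, hφ2⟩ := hl4 P hP hlP
        exact tame_gen hA hfin hpA hρ hNo hun hl1 hl2 hP hlP hφ1 hl3 hφ2 m h h1 τ hτ
      · push Not at hSP
        refine h1 τ (mem_cong.2 ?_)
        rw [hur P hP hpP hSP _ hτ, Units.val_one, sub_self]
        intro a b
        exact Ideal.zero_mem _

end arith

end Pool.Agent.W5h93.FMR
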