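import Pool.Agent.W5h93.FMR.Gen2

/-! Arbitrary residual representations: the adjoint part of the class group. -/

set_option autoImplicit false
set_option linter.all false

namespace Pool.Agent.W5h93.FMR

open NumberField Pool.Agent.W569.FM Pool.Agent.W569.UF Pool.Agent.W134.FM Pool.Agent.W5h93.FMP
open Pool.Agent.Z384 IsLocalRing Matrix Pool.Agent.W5h93.FMQ

open Polynomial in
/-- the polynomial with the roots `1, 1, α / β, β / α` -/
noncomputable def adq {k : Type*} [CommRing k] (t d : k) : k[X] :=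
  (X - 1) ^ 2 * (C d * (X + 1) ^ 2 - C t ^ 2 * X)

theorem adq_eq {k : Type*} [CommRing k] (t d : k) : adq t d = adp t d := by
  unfold adq adp
  simp only [map_pow, map_mul, map_sub, map_ofNat]
  ring

section

variable {A : Type} [CommRing A] [IsLocalRing A] [IsNoetherianRing A] [TopologicalSpace A]
variable {p : ℕ} [hp : Fact p.Prime]

theorem op_iter {N : Subgroup (GF ℚ)} [hN : N.Normal] (ρ : GF ℚ →* GL (Fin 2) A) (g : GF ℚ) (Q : Polynomial ℤ)
    (hQ : adp (residue A (ρ g : Matrix (Fin 2) (Fin 2) A).trace)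
      (residue A (ρ g : Matrix (Fin 2) (Fin 2) A).det) ∣ Q.map (Int.castRingHom (ResidueField A)))
    (hun : ∀ σ ∈ N, (ρ σ : Matrix (Fin 2) (Fin 2) A).trace - 2 ∈ maximalIdeal A ∧
      (ρ σ : Matrix (Fin 2) (Fin 2) A).det - 1 ∈ maximalIdeal A) (m : ℕ) :
    ∀ h : N →* Multiplicative (ZMod p), (∀ σ : N, (σ : GF ℚ) ∈ cong ρ m → h σ = 1) →
      (fun h => op g (fun i => Q.coeff i) (Q.natDegree + 1) h)^[m] h = 1 := by
  induction m with
  | zero =>
    intro h hm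
    refine MonoidHom.ext fun τ => ?_
    refine hm τ (mem_cong.2 fun i j => ?_)
    rw [pow_zero, Ideal.one_eq_top]
    trivial
  | succ m ih =>
    intro h hm
    rw [Function.iterate_succ, Function.comp_apply]
    exact ih _ fun σ hσ => op_desc ρ g Q hQ hun h m hm σ hσ

/-- **Arbitrary residual representations.** -/
theorem onto_adj (hA : IsAdic (maximalIdeal A)) (hfin : Finite (ResidueField A))
    (hpA : (p : A) ∈ maximalIdeal A) {ρ : GF ℚ →* GL (Fin 2) A}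
    (hρ : ∀ i j, Continuous fun σ => (ρ σ : Matrix (Fin 2) (Fin 2) A) i j)
    {P₀ : Ideal (OO ℚ)} (hP₀ : P₀.IsMaximal) (hpP₀ : (p : OO ℚ) ∈ P₀)
    {D : Subgroup (GF ℚ)} (hDc : IsClosed (D : Set (GF ℚ))) (hID : Ic P₀ ≤ D) (hDD : D ≤ Dc P₀)
    {N : Subgroup (GF ℚ)} [hN : N.Normal] (hNo : IsOpen (N : Set (GF ℚ)))
    (hun : ∀ σ ∈ N, (ρ σ : Matrix (Fin 2) (Fin 2) A).trace - 2 ∈ maximalIdeal A ∧
      (ρ σ : Matrix (Fin 2) (Fin 2) A).det - 1 ∈ maximalIdeal A)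
    (hDN : ∀ g, ∃ δ ∈ D, δ⁻¹ * g ∈ N)
    {S : Set ℕ} (hS : ∀ l ∈ S, l.Prime ∧ l ≠ p ∧ (l : ResidueField A) ≠ 1 ∧
      ∀ Q : Ideal (OO ℚ), Q.IsMaximal → (l : OO ℚ) ∈ Q → ∃ φ, FrobAt l Q φ ∧
        residue A (ρ φ : Matrix (Fin 2) (Fin 2) A).det * ((l : ResidueField A) + 1) ^ 2 ≠
          residue A (ρ φ : Matrix (Fin 2) (Fin 2) A).trace ^ 2 * (l : ResidueField A))
    (hur : ∀ Q : Ideal (OO ℚ), Q.IsMaximal → (p : OO ℚ) ∉ Q → (∀ l ∈ S, (l : OO ℚ) ∉ Q) →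
      ∀ τ, InInertia Q τ → ρ τ = 1)
    (hcl : ∀ h : N →* Multiplicative (ZMod p), IsOpen (h.ker : Set N) →
      (∀ P : Ideal (OO ℚ), P.IsMaximal → ∀ τ : N, InInertia P (τ : GF ℚ) → h τ = 1) →
      (∀ τ : N, (τ : GF ℚ) ∈ D → h τ = 1) →
      (∀ (g : GF ℚ) (Q : Polynomial ℤ), adq (residue A (ρ g : Matrix (Fin 2) (Fin 2) A).trace)
        (residue A (ρ g : Matrix (Fin 2) (Fin 2) A).det) ∣ Q.map (Int.castRingHom (ResidueField A)) →
        ∃ m : ℕ, (fun h => op g (fun i => Q.coeff i) (Q.natDegree + 1) h)^[m] h = 1) → h = 1)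
    (g : GF ℚ) : ∃ δ ∈ D, ρ δ = ρ g := by
  have hFROB : S_FROB := Pool.Agent.W571.FM.main
  refine surj_of_dense hA hρ hDc (fun m g => ?_) g
  refine dense2 (p := p) hA hfin hpA hρ N D hDN (fun σ hσ => ?_) m ?_ g
  · refine ⟨2, ?_⟩
    rw [pow_two]
    refine unip_mul (hun σ hσ).1 (hun σ hσ).2 (hun σ hσ).1 (hun σ hσ).2 ?_
    have := (hun (σ * σ) (mul_mem hσ hσ)).1
    rwa [map_mul, Units.val_mul] at this
  · intro h h1 h2
    have ho : IsOpen (h.ker : Set N) := by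
      have h3 : IsOpen (((cong ρ m).subgroupOf N : Subgroup N) : Set N) :=
        (cong_open hA hρ m).preimage continuous_subtype_val
      refine Subgroup.isOpen_mono ?_ h3
      intro σ hσ
      exact h1 σ (Subgroup.mem_subgroupOf.1 hσ)
    have h0 := hcl h ho (fun P hP τ hτ => ?_) h2 (fun g Q hQ => ⟨m, op_iter ρ g Q (adq_eq (k := ResidueField A) _ _ ▸ hQ) hun m h h1⟩)
    · intro σ
      rw [h0]
      rfl
    by_cases hpP : (p : OO ℚ) ∈ P
    · obtain ⟨g, hg⟩ := (hFROB p hp.out).2 P₀ P hP₀ hP hpP₀ hpP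
      have h3 := hg τ hτ
      obtain ⟨δ, hδ, hδg⟩ := hDN g⁻¹
      set u : GF ℚ := δ⁻¹ * g⁻¹ with hu
      have h4 : InInertia P₀ (u * τ * u⁻¹) := by
        have h5 := inertia_conj h3 (inv_mem (hDD hδ))
        have e : δ⁻¹ * (g⁻¹ * (τ : GF ℚ) * g) * δ⁻¹⁻¹ = u * τ * u⁻¹ := by
          rw [hu]; group
        rwa [e] at h5
      let u' : N := ⟨u, hδg⟩
      have h6 : h (u' * τ * u'⁻¹) = 1 := h2 _ (hID h4)
      rw [map_mul, map_mul, map_inv, mul_comm (h u'), mul_inv_cancel_right] at h6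
      exact h6
    · by_cases hSP : ∃ l ∈ S, (l : OO ℚ) ∈ P
      · obtain ⟨l, hl, hlP⟩ := hSP
        obtain ⟨hl1, hl2, hl3, hl4⟩ := hS l hl
        obtain ⟨φ, hφ1, hφ2⟩ := hl4 P hP hlP
        exact tame_gen hA hfin hpA hρ hNo hun hl1 hl2 hP hlP hφ1 hl3 hφ2 m h h1 τ hτ
      · push Not at hSP
        refine h1 τ (mem_cong.2 ?_)
        rw [hur P hP hpP hSP _ hτ, Units.val_one, sub_self]
        intro a b
        exact Ideal.zero_mem _

end

end Pool.Agent.W5h93.FMR
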