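import Pool.Agent.W5h93.FMQ.Inert

/-! Eigenvectors with values in a finite field, and the layers of a residually reducible
representation. -/

set_option autoImplicit false
set_option linter.all false

namespace Pool.Agent.W5h93.FMR

open Pool.Agent.Z384 IsLocalRing Matrix Pool.Agent.W5h93.FMP Pool.Agent.W5h93.FMQ

section proj

variable {k : Type*} [Field k] [Finite k] {G : Type*} [Group G] {N : Subgroup G} [hN : N.Normal]

/-- the projection of a homomorphism to an eigenspace of the conjugation by `g` -/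
noncomputable def pr (g : G) (h : N →* Multiplicative k) (a : kˣ) : N →* Multiplicative k where
  toFun σ := Multiplicative.ofAdd (∑ i ∈ Finset.range (Nat.card k - 1), ((a : k)) ^ i *
    Multiplicative.toAdd (h (MulAut.conjNormal (g ^ i) σ)))
  map_one' := by
    simp
  map_mul' := by
    intro σ τ
    rw [← ofAdd_add, ← Finset.sum_add_distrib]
    congr 1
    refine Finset.sum_congr rfl fun i _ => ?_
    rw [map_mul, map_mul, toAdd_mul, mul_add]

theorem pr_apply (g : G) (h : N →* Multiplicative k) (a : kˣ) (σ : N) :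
    Multiplicative.toAdd (pr g h a σ) = ∑ i ∈ Finset.range (Nat.card k - 1), ((a : k)) ^ i *
    Multiplicative.toAdd (h (MulAut.conjNormal (g ^ i) σ)) := rfl

theorem conj_self_N (h : N →* Multiplicative k) {u : G} (hu : u ∈ N) (σ : N) :
    h (MulAut.conjNormal u σ) = h σ := by
  have e : MulAut.conjNormal u σ = (⟨u, hu⟩ : N) * σ * (⟨u, hu⟩ : N)⁻¹ := by
    apply Subtype.ext
    rw [MulAut.conjNormal_apply]
    rfl
  rw [e, map_mul, map_mul, map_inv, mul_comm (h ⟨u, hu⟩), mul_inv_cancel_right]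

theorem pr_eig {g : G} (hg : g ^ (Nat.card k - 1) ∈ N) (h : N →* Multiplicative k) (a : kˣ) (σ : N) :
    Multiplicative.toAdd (pr g h a (MulAut.conjNormal g σ)) =
      ((a⁻¹ : kˣ) : k) * Multiplicative.toAdd (pr g h a σ) := by
  classical
  have := Fintype.ofFinite k
  set F : ℕ → k := fun i => (a : k) ^ i *
    Multiplicative.toAdd (h (MulAut.conjNormal (g ^ i) σ)) with hF
  have h1 : ∀ i, (a : k) ^ i *
      Multiplicative.toAdd (h (MulAut.conjNormal (g ^ i) (MulAut.conjNormal g σ))) =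
      ((a⁻¹ : kˣ) : k) * F (i + 1) := by
    intro i
    rw [← MulAut.mul_apply, ← map_mul, ← pow_succ]
    show _ = ((a⁻¹ : kˣ) : k) * ((a : k) ^ (i + 1) * _)
    rw [pow_succ (a : k) i, ← mul_assoc]
    congr 1
    rw [mul_comm ((a : k) ^ i), ← mul_assoc, ← Units.val_mul, inv_mul_cancel, Units.val_one,
      one_mul]
  have h2 : F (Nat.card k - 1) = F 0 := by
    show (a : k) ^ (Nat.card k - 1) * Multiplicative.toAdd (h (MulAut.conjNormal (g ^ (Nat.card k - 1)) σ)) =
      (a : k) ^ 0 * Multiplicative.toAdd (h (MulAut.conjNormal (g ^ 0) σ))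
    rw [conj_self_N h hg, Nat.card_eq_fintype_card, FiniteField.pow_card_sub_one_eq_one _ a.ne_zero,
      pow_zero, pow_zero, map_one, MulAut.one_apply]
  rw [pr_apply, pr_apply, Finset.sum_congr rfl fun i _ => h1 i, ← Finset.mul_sum]
  congr 1
  have h3 := Finset.sum_range_succ' F (Nat.card k - 1)
  rw [Finset.sum_range_succ, h2] at h3
  exact (add_right_cancel h3).symm

/-- **Projection**: it suffices to consider eigenvectors. -/
theorem of_eig {g : G} (hg : g ^ (Nat.card k - 1) ∈ N) (V : (N →* Multiplicative k) → Prop)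
    (hV : ∀ h a, V h → V (pr g h a))
    (hE : ∀ h, V h → ∀ b : kˣ, (∀ σ, Multiplicative.toAdd (h (MulAut.conjNormal g σ)) =
      (b : k) * Multiplicative.toAdd (h σ)) → ∀ σ, h σ = 1)
    (h : N →* Multiplicative k) (hh : V h) (σ : N) : h σ = 1 := by
  classical
  have := Fintype.ofFinite k
  have h1 : ∀ a : kˣ, Multiplicative.toAdd (pr g h a σ) = 0 := by
    intro a
    rw [hE _ (hV h a hh) a⁻¹ (pr_eig hg h a) σ, toAdd_one]
  have h2 : ∑ a : kˣ, Multiplicative.toAdd (pr g h a σ) = 0 :=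
    Finset.sum_eq_zero fun a _ => h1 a
  simp only [pr_apply] at h2
  rw [Finset.sum_comm] at h2
  have h3 : ∀ i ∈ Finset.range (Nat.card k - 1), ∑ a : kˣ, (a : k) ^ i *
      Multiplicative.toAdd (h (MulAut.conjNormal (g ^ i) σ)) =
      if i = 0 then - Multiplicative.toAdd (h σ) else 0 := by
    intro i hi
    rw [← Finset.sum_mul]
    have h4 := FiniteField.sum_pow_units k i
    rw [← Nat.card_eq_fintype_card] at h4
    have h5 : ∑ a : kˣ, (a : k) ^ i = if Nat.card k - 1 ∣ i then -1 else 0 := by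
      rw [← h4]
    rw [h5]
    by_cases hi0 : i = 0
    · subst hi0
      rw [if_pos (dvd_zero _), if_pos rfl, pow_zero, map_one, MulAut.one_apply, neg_one_mul]
    · rw [if_neg, if_neg hi0, zero_mul]
      intro hd
      have := Nat.le_of_dvd (Nat.pos_of_ne_zero hi0) hd
      have := Finset.mem_range.1 hi
      omega
  rw [Finset.sum_congr rfl h3, Finset.sum_ite_eq' (Finset.range (Nat.card k - 1)) 0, if_pos] at h2
  · apply Multiplicative.toAdd.injective
    rw [toAdd_one]
    exact neg_eq_zero.1 h2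
  · rw [Finset.mem_range]
    have : 1 < Nat.card k := Finite.one_lt_card
    omega

theorem conj_pow_eig (h : N →* Multiplicative k) {g : G} {b : k}
    (hb : ∀ σ, Multiplicative.toAdd (h (MulAut.conjNormal g σ)) = b * Multiplicative.toAdd (h σ))
    (i : ℕ) (σ : N) : Multiplicative.toAdd (h (MulAut.conjNormal (g ^ i) σ)) =
      b ^ i * Multiplicative.toAdd (h σ) := by
  induction i with
  | zero => rw [pow_zero, map_one, MulAut.one_apply, pow_zero, one_mul]
  | succ i ih => rw [pow_succ', map_mul, MulAut.mul_apply, hb, ih, pow_succ']; ring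

end proj

section step

variable {k : Type*} [Field k] {G : Type*} [Group G] {N : Subgroup G} [hN : N.Normal]
variable {B : Type*} [CommRing B]

theorem eig_step (ρ : G →* GL (Fin 2) B) (M : Subgroup G) (g : G)
    (hMg : ∀ σ ∈ M, g * σ * g⁻¹ ∈ M)
    (hadd : ∀ σ ∈ M, ∀ τ ∈ M, ((ρ σ : Matrix (Fin 2) (Fin 2) B) - 1) *
      ((ρ τ : Matrix (Fin 2) (Fin 2) B) - 1) = 0)
    (c : ℕ → ℤ) (d : ℕ)
    (h : N →* Multiplicative k) (b : k)
    (hb : ∀ i σ, Multiplicative.toAdd (h (MulAut.conjNormal (g ^ i) σ)) =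
      b ^ i * Multiplicative.toAdd (h σ))
    (hk : ∀ σ : N, (σ : G) ∈ M → ρ σ = 1 → h σ = 1) (σ : N) (hσ : (σ : G) ∈ M)
    (hQ : ∑ i ∈ Finset.range d, c i • ((ρ g : Matrix (Fin 2) (Fin 2) B) ^ i *
      ((ρ σ : Matrix (Fin 2) (Fin 2) B) - 1) *
      ((((ρ g)⁻¹ : GL (Fin 2) B) : Matrix (Fin 2) (Fin 2) B)) ^ i) = 0) :
    (∑ i ∈ Finset.range d, (c i : k) * b ^ i) * Multiplicative.toAdd (h σ) = 0 := by
  set X : Matrix (Fin 2) (Fin 2) B := (ρ g : Matrix (Fin 2) (Fin 2) B) with hX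
  set Y : Matrix (Fin 2) (Fin 2) B := (((ρ g)⁻¹ : GL (Fin 2) B) : Matrix (Fin 2) (Fin 2) B) with hY
  have hXY : X * Y = 1 := Units.mul_inv _
  have hXYi : ∀ i : ℕ, X ^ i * Y ^ i = 1 := by
    intro i
    induction i with
    | zero => simp
    | succ i ih => rw [pow_succ, pow_succ', mul_assoc, ← mul_assoc X, hXY, one_mul, ih]
  let ad : M →* Multiplicative (Matrix (Fin 2) (Fin 2) B) :=
    { toFun := fun σ => Multiplicative.ofAdd ((ρ σ : Matrix (Fin 2) (Fin 2) B) - 1)
      map_one' := by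
        simp
      map_mul' := by
        intro σ τ
        rw [← ofAdd_add]
        congr 1
        have h1 := hadd σ σ.2 τ τ.2
        rw [Subgroup.coe_mul, map_mul, Units.val_mul]
        have h2 : (ρ (σ : G) : Matrix (Fin 2) (Fin 2) B) * (ρ (τ : G) : Matrix (Fin 2) (Fin 2) B) - 1 =
            ((ρ (σ : G) : Matrix (Fin 2) (Fin 2) B) - 1) + ((ρ (τ : G) : Matrix (Fin 2) (Fin 2) B) - 1) +
            ((ρ (σ : G) : Matrix (Fin 2) (Fin 2) B) - 1) * ((ρ (τ : G) : Matrix (Fin 2) (Fin 2) B) - 1) := by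
          noncomm_ring
        rw [h2, h1, add_zero] }
  have had : ∀ σ : M, Multiplicative.toAdd (ad σ) = (ρ σ : Matrix (Fin 2) (Fin 2) B) - 1 := fun σ => rfl
  have hMi : ∀ i : ℕ, g ^ i * σ * (g ^ i)⁻¹ ∈ M := by
    intro i
    induction i with
    | zero => simpa using hσ
    | succ i ih =>
      have := hMg _ ih
      have e : g * (g ^ i * σ * (g ^ i)⁻¹) * g⁻¹ = g ^ (i + 1) * σ * (g ^ (i + 1))⁻¹ := by
        rw [pow_succ', _root_.mul_inv_rev]; group
      rwa [e] at this
  let s : ℕ → M := fun i => ⟨g ^ i * σ * (g ^ i)⁻¹, hMi i⟩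
  set u : Matrix (Fin 2) (Fin 2) B := (ρ σ : Matrix (Fin 2) (Fin 2) B) - 1 with hu
  have hρY : ∀ i : ℕ, ((ρ (g ^ i)⁻¹ : GL (Fin 2) B) : Matrix (Fin 2) (Fin 2) B) = Y ^ i := by
    intro i
    rw [← inv_pow, map_pow, map_inv, Units.val_pow_eq_pow_val]
  have hads : ∀ i : ℕ, Multiplicative.toAdd (ad (s i)) = X ^ i * u * Y ^ i := by
    intro i
    rw [had]
    show ((ρ (g ^ i * σ * (g ^ i)⁻¹) : GL (Fin 2) B) : Matrix (Fin 2) (Fin 2) B) - 1 = _
    rw [map_mul, map_mul, Units.val_mul, Units.val_mul, map_pow, Units.val_pow_eq_pow_val, hρY, hu,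
      mul_sub, sub_mul, mul_one, hXYi]
  let s' : ℕ → N := fun i => MulAut.conjNormal (g ^ i) σ
  have hs' : ∀ i, ((s' i : N) : G) = (s i : G) := fun i => MulAut.conjNormal_apply _ _
  have main : ∀ d : ℕ, ∃ (t : M) (t' : N), (t' : G) = (t : G) ∧
      Multiplicative.toAdd (ad t) = ∑ i ∈ Finset.range d, c i • (X ^ i * u * Y ^ i) ∧
      Multiplicative.toAdd (h t') = (∑ i ∈ Finset.range d, (c i : k) * b ^ i) *
        Multiplicative.toAdd (h σ) := by
    intro d
    induction d with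
    | zero =>
      refine ⟨1, 1, rfl, ?_, ?_⟩
      · rw [map_one, toAdd_one, Finset.range_zero, Finset.sum_empty]
      · rw [map_one, toAdd_one, Finset.range_zero, Finset.sum_empty, zero_mul]
    | succ d ih =>
      obtain ⟨t, t', h1, h2, h3⟩ := ih
      refine ⟨t * s d ^ c d, t' * s' d ^ c d, ?_, ?_, ?_⟩
      · rw [Subgroup.coe_mul, Subgroup.coe_mul, Subgroup.coe_zpow, Subgroup.coe_zpow, h1, hs']
      · rw [map_mul, map_zpow, toAdd_mul, toAdd_zpow, h2, hads, Finset.sum_range_succ]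
      · rw [map_mul, map_zpow, toAdd_mul, toAdd_zpow, h3, hb, Finset.sum_range_succ, zsmul_eq_mul]
        ring
  obtain ⟨t, t', h1, h2, h3⟩ := main d
  rw [hQ, had] at h2
  have h4 : ρ (t : G) = 1 := Units.ext (sub_eq_zero.1 h2)
  have h5 : h t' = 1 := by
    refine hk t' ?_ ?_
    · rw [h1]; exact t.2
    · rw [h1]; exact h4
  rw [← h3, h5, toAdd_one]

end step

end Pool.Agent.W5h93.FMR
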