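import Pool.Agent.W5h93.FMR.Grp

/-! Layers, with values in the residue field. -/

set_option autoImplicit false
set_option linter.all false

namespace Pool.Agent.W5h93.FMR

open Pool.Agent.Z384 IsLocalRing Matrix Pool.Agent.W5h93.FMP Pool.Agent.W5h93.FMQ

section poly

open Polynomial

theorem exists_poly {k : Type*} [Field k] [Finite k] (p : ℕ) [Fact p.Prime] [CharP k p] (r : kˣ) :
    ∃ Q : Polynomial ℤ, (((X - 1) ^ 2 * (X - C (r : k)) * (C (r : k) * X - 1) : k[X]) ∣
      Q.map (Int.castRingHom k)) ∧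
      ∀ b : k, (Q.map (Int.castRingHom k)).eval b = 0 → b = 1 ∨ (∃ φ : k ≃+* k, φ b = (r : k)) ∨
        (∃ φ : k ≃+* k, φ b = ((r⁻¹ : kˣ) : k)) := by
  letI : Algebra (ZMod p) k := ZMod.algebra k p
  set m1 := minpoly (ZMod p) (r : k) with hm1
  set m2 := minpoly (ZMod p) ((r⁻¹ : kˣ) : k) with hm2
  obtain ⟨Q, hQ⟩ := Polynomial.map_surjective (Int.castRingHom (ZMod p)) ZMod.intCast_surjective
    ((X - 1) ^ 2 * m1 * m2)
  have hQk : Q.map (Int.castRingHom k) = (X - 1) ^ 2 * m1.map (algebraMap (ZMod p) k) *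
      m2.map (algebraMap (ZMod p) k) := by
    have e : Int.castRingHom k = (algebraMap (ZMod p) k).comp (Int.castRingHom (ZMod p)) :=
      RingHom.ext_int _ _
    rw [e, ← Polynomial.map_map, hQ]
    simp only [Polynomial.map_mul, Polynomial.map_pow, Polynomial.map_sub, Polynomial.map_X,
      Polynomial.map_one]
  have hroot : ∀ a : k, (X - C a) ∣ (minpoly (ZMod p) a).map (algebraMap (ZMod p) k) := by
    intro a
    rw [Polynomial.dvd_iff_isRoot, Polynomial.IsRoot.def, Polynomial.eval_map_algebraMap]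
    exact minpoly.aeval _ _
  have hconj : ∀ a b : k, ((minpoly (ZMod p) a).map (algebraMap (ZMod p) k)).eval b = 0 →
      ∃ φ : k ≃+* k, φ b = a := by
    intro a b h
    rw [Polynomial.eval_map_algebraMap] at h
    have hint : IsIntegral (ZMod p) a := Algebra.IsIntegral.isIntegral a
    have h1 : minpoly (ZMod p) a = minpoly (ZMod p) b :=
      minpoly.eq_of_irreducible_of_monic (minpoly.irreducible hint) h (minpoly.monic hint)
    obtain ⟨φ, hφ⟩ := isConjRoot_iff_exists_algEquiv.1 (show IsConjRoot (ZMod p) a b from h1)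
    exact ⟨φ.toRingEquiv, hφ⟩
  refine ⟨Q, ?_, ?_⟩
  · rw [hQk]
    refine mul_dvd_mul (mul_dvd_mul_left _ (hroot _)) ?_
    have e : (C (r : k) * X - 1 : k[X]) = C (r : k) * (X - C ((r⁻¹ : kˣ) : k)) := by
      rw [mul_sub, ← C_mul, ← Units.val_mul, mul_inv_cancel, Units.val_one, C_1]
    rw [e]
    have hu : IsUnit (C (r : k)) := Polynomial.isUnit_C.2 r.isUnit
    exact (hu.mul_left_dvd).2 (hroot _)
  · intro b hb
    rw [hQk, Polynomial.eval_mul, Polynomial.eval_mul] at hb
    rcases mul_eq_zero.1 hb with hb | hb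
    · rcases mul_eq_zero.1 hb with hb | hb
      · left
        simp only [Polynomial.eval_pow, Polynomial.eval_sub, Polynomial.eval_X, Polynomial.eval_one] at hb
        exact sub_eq_zero.1 (pow_eq_zero_iff (two_ne_zero) |>.1 hb)
      · exact Or.inr (Or.inl (hconj _ _ hb))
    · exact Or.inr (Or.inr (hconj _ _ hb))

end poly

section layers

variable {A : Type*} [CommRing A] [IsLocalRing A]

open Polynomial in
/-- a polynomial which kills the conjugation -/
theorem kill {J : Ideal A} (X Y u : Matrix (Fin 2) (Fin 2) (A ⧸ J)) (hXY : X * Y = 1) (hYX : Y * X = 1)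
    (hu : ∀ x ∈ maximalIdeal A, x • u = 0) (δ t : A) (ht : Ideal.Quotient.mk J t = X.trace)
    (hδ : Ideal.Quotient.mk J δ = X.det) (r : ResidueField A) (htr : residue A t = 1 + r)
    (hdr : residue A δ = r) (Q : Polynomial ℤ)
    (hQ : (((Polynomial.X - 1) ^ 2 * (Polynomial.X - C r) * (C r * Polynomial.X - 1) :
      (ResidueField A)[X]) ∣ Q.map (Int.castRingHom (ResidueField A)))) :
    ∑ i ∈ Finset.range (Q.natDegree + 1), Q.coeff i • (X ^ i * u * Y ^ i) = 0 := by
  let T : Module.End A (Matrix (Fin 2) (Fin 2) (A ⧸ J)) :=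
    (LinearMap.mulLeft A X) ∘ₗ (LinearMap.mulRight A Y)
  have hT : ∀ (i : ℕ) (v : Matrix (Fin 2) (Fin 2) (A ⧸ J)), (T ^ i) v = X ^ i * v * Y ^ i := by
    intro i
    induction i with
    | zero => intro v; simp
    | succ i ih =>
      intro v
      rw [pow_succ, Module.End.mul_apply, ih]
      show X ^ i * (X * (v * Y)) * Y ^ i = _
      rw [pow_succ, pow_succ' Y]
      simp only [mul_assoc]
  have hYXi : ∀ i : ℕ, Y ^ i * X ^ i = 1 := by
    intro i
    induction i with
    | zero => simp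
    | succ i ih => rw [pow_succ, pow_succ', mul_assoc, ← mul_assoc Y, hYX, one_mul, ih]
  have hXYi : ∀ i : ℕ, X ^ i * Y ^ i = 1 := by
    intro i
    induction i with
    | zero => simp
    | succ i ih => rw [pow_succ, pow_succ', mul_assoc, ← mul_assoc X, hXY, one_mul, ih]
  have hsm : ∀ (a : A) (v : Matrix (Fin 2) (Fin 2) (A ⧸ J)), a • v = (Ideal.Quotient.mk J a) • v := by
    intro a v
    rw [← Ideal.Quotient.algebraMap_eq, algebraMap_smul]
  -- the exact identity
  let CA : A[X] := C δ * Polynomial.X ^ 4 - C (t ^ 2) * Polynomial.X ^ 3 +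
    C (2 * (t ^ 2 - δ)) * Polynomial.X ^ 2 - C (t ^ 2) * Polynomial.X + C δ
  have hCA : ∀ v, (aeval T CA) v = 0 := by
    intro v
    have e : (aeval T CA) v = δ • (X ^ 4 * v * Y ^ 4) - (t ^ 2) • (X ^ 3 * v * Y ^ 3) +
        (2 * (t ^ 2 - δ)) • (X ^ 2 * v * Y ^ 2) - (t ^ 2) • (X ^ 1 * v * Y ^ 1) + δ • v := by
      simp only [CA, map_add, map_sub, map_mul, aeval_C, map_pow, aeval_X, LinearMap.add_apply,
        LinearMap.sub_apply, Module.End.mul_apply, Module.algebraMap_end_apply, hT]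
      rw [show T v = X ^ 1 * v * Y ^ 1 by rw [← hT, pow_one]]
      simp only [← map_pow, Module.algebraMap_end_apply]
      module
    rw [e]
    have hid := mat_id X v
    have h2 : (δ • (X ^ 4 * v * Y ^ 4) - (t ^ 2) • (X ^ 3 * v * Y ^ 3) +
        (2 * (t ^ 2 - δ)) • (X ^ 2 * v * Y ^ 2) - (t ^ 2) • (X ^ 1 * v * Y ^ 1) + δ • v) * X ^ 4 = 0 := by
      simp only [hsm, add_mul, sub_mul, smul_mul_assoc, map_mul, map_pow, map_sub, map_ofNat]
      rw [ht, hδ]
      have k4 : X ^ 4 * v * Y ^ 4 * X ^ 4 = X ^ 4 * v := by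
        rw [mul_assoc _ (Y ^ 4), hYXi, mul_one]
      have k3 : X ^ 3 * v * Y ^ 3 * X ^ 4 = X ^ 3 * v * X := by
        rw [pow_succ X 3, mul_assoc _ (Y ^ 3), ← mul_assoc (Y ^ 3), hYXi, one_mul]
      have k2 : X ^ 2 * v * Y ^ 2 * X ^ 4 = X ^ 2 * v * X ^ 2 := by
        rw [show X ^ 4 = X ^ 2 * X ^ 2 by rw [← pow_add], mul_assoc _ (Y ^ 2), ← mul_assoc (Y ^ 2),
          hYXi, one_mul]
      have k1 : X ^ 1 * v * Y ^ 1 * X ^ 4 = X * v * X ^ 3 := by
        rw [show X ^ 4 = X ^ 1 * X ^ 3 by rw [← pow_add], mul_assoc _ (Y ^ 1), ← mul_assoc (Y ^ 1),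
          hYXi, one_mul, pow_one]
      rw [k4, k3, k2, k1]
      exact hid
    have h3 := congrArg (fun Z => Z * Y ^ 4) h2
    simp only [zero_mul] at h3
    rwa [mul_assoc, hXYi, mul_one] at h3
  have hCk : CA.map (residue A) = (Polynomial.X - 1) ^ 2 * (Polynomial.X - C r) *
      (C r * Polynomial.X - 1) := by
    simp only [CA, Polynomial.map_add, Polynomial.map_sub, Polynomial.map_mul, Polynomial.map_pow,
      Polynomial.map_X, Polynomial.map_C, map_pow, map_mul, map_sub, map_ofNat, htr, hdr, map_add, map_one,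
      Polynomial.map_ofNat]
    ring
  obtain ⟨Dk, hDk⟩ := hQ
  obtain ⟨D, hD⟩ := Polynomial.map_surjective (residue A) residue_surjective Dk
  let QA : A[X] := Q.map (Int.castRingHom A)
  have hQA : QA.map (residue A) = Q.map (Int.castRingHom (ResidueField A)) := by
    rw [Polynomial.map_map, RingHom.ext_int ((residue A).comp (Int.castRingHom A))
      (Int.castRingHom (ResidueField A))]
  have hE : (QA - CA * D).map (residue A) = 0 := by
    rw [Polynomial.map_sub, Polynomial.map_mul, hQA, hCk, hD, hDk, sub_self]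
  have hEu : (aeval T (QA - CA * D)) u = 0 := by
    rw [aeval_eq_sum_range, LinearMap.sum_apply]
    refine Finset.sum_eq_zero fun i _ => ?_
    rw [LinearMap.smul_apply, ← map_smul, hu, map_zero]
    have h1 := congrArg (fun P => P.coeff i) hE
    simp only [Polynomial.coeff_map, Polynomial.coeff_zero] at h1
    exact (residue_eq_zero_iff _).1 h1
  have hQu : (aeval T QA) u = 0 := by
    have e : QA = (QA - CA * D) + CA * D := by ring
    rw [e, map_add, LinearMap.add_apply, hEu, zero_add, map_mul, Module.End.mul_apply, hCA]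
  have h4 : (aeval T Q) u = 0 := by
    have e : (aeval T QA : Module.End A _) = aeval T Q := by
      show aeval T (Q.map (algebraMap ℤ A)) = aeval T Q
      exact Polynomial.aeval_map_algebraMap A T Q
    rw [← e]
    exact hQu
  rw [aeval_eq_sum_range, LinearMap.sum_apply] at h4
  rw [← h4]
  refine Finset.sum_congr rfl fun i _ => ?_
  rw [LinearMap.smul_apply, hT]

end layers

end Pool.Agent.W5h93.FMR
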