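import Pool.Agent.W5h93.FMR.Desc

/-! The density of the inertia group or the decomposition group at `p`, for representations with
residual semisimplification `1 + r`. -/

set_option autoImplicit false
set_option linter.all false

namespace Pool.Agent.W5h93.FMR

open NumberField Pool.Agent.W569.FM Pool.Agent.W569.UF Pool.Agent.W134.FM Pool.Agent.W5h93.FMP
open Pool.Agent.Z384 IsLocalRing Matrix Pool.Agent.W5h93.FMQ

/-- no unramified characters in the component `χ` of the field cut out by `r` -/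
def NoComp {k : Type} [Field k] (r χ : GF ℚ →* kˣ) : Prop :=
  ∀ h : r.ker →* Multiplicative k, IsOpen (h.ker : Set r.ker) →
    (∀ P : Ideal (OO ℚ), P.IsMaximal → ∀ τ : r.ker, InInertia P (τ : GF ℚ) → h τ = 1) →
    (∀ (σ : GF ℚ) (τ τ' : r.ker), (τ' : GF ℚ) = σ * τ * σ⁻¹ →
      Multiplicative.toAdd (h τ') = (χ σ : k) * Multiplicative.toAdd (h τ)) →
    ∀ σ, h σ = 1

section

variable {k : Type} [Field k] [Finite k] {p : ℕ} [hp : Fact p.Prime] [CharP k p]

/-- `h` lies in the component `χ` -/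
def EigR (r χ : GF ℚ →* kˣ) (h : r.ker →* Multiplicative k) : Prop :=
  ∀ (σ : GF ℚ) (τ : r.ker), Multiplicative.toAdd (h (MulAut.conjNormal σ τ)) =
    (χ σ : k) * Multiplicative.toAdd (h τ)

theorem one_of_toAdd {k : Type} [AddGroup k] {x : Multiplicative k} (h : Multiplicative.toAdd x = 0) : x = 1 := by
  apply Multiplicative.toAdd.injective
  rw [toAdd_one, h]

/-- tame primes -/
theorem tame_eig {r χ : GF ℚ →* kˣ} (hro : IsOpen (r.ker : Set (GF ℚ)))
    {h : r.ker →* Multiplicative k} (he : EigR r χ h)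
    (ho : IsOpen (h.ker : Set r.ker)) {l : ℕ} (hl : l.Prime) (hlp : l ≠ p)
    {Q : Ideal (OO ℚ)} (hQ : Q.IsMaximal) (hlQ : (l : OO ℚ) ∈ Q) {φ : GF ℚ} (hφ : FrobAt l Q φ)
    (hne : (χ φ : k) ≠ (l : k)) {τ : r.ker} (hτ : InInertia Q (τ : GF ℚ)) : h τ = 1 := by
  have hfin : Finite (Multiplicative k) := Finite.of_equiv _ Multiplicative.ofAdd
  have hpg : IsPGroup p (Multiplicative k) := by
    intro x
    refine ⟨1, one_of_toAdd ?_⟩
    rw [toAdd_pow, pow_one, nsmul_eq_mul, CharP.cast_eq_zero, zero_mul]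
  have h1 := tamen p l l hp.out hl (Ne.symm hlp) hl.one_lt.le r.ker hro
    (Multiplicative k) hpg h ho Q hQ hlQ τ φ hτ hφ
  have h2 := he φ τ
  have e : (MulAut.conjNormal φ τ : r.ker) = ⟨φ * τ * φ⁻¹, r.normal_ker.conj_mem τ τ.2 φ⟩ :=
    Subtype.ext (MulAut.conjNormal_apply _ _)
  rw [e, h1, toAdd_pow, nsmul_eq_mul] at h2
  have h4 : ((χ φ : k) - (l : k)) * Multiplicative.toAdd (h τ) = 0 := by
    linear_combination - h2
  exact one_of_toAdd ((mul_eq_zero.1 h4).resolve_left (sub_ne_zero.2 hne))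

omit [Finite k] [CharP k p] in
/-- inertia above `p` -/
theorem above_p {r : GF ℚ →* kˣ} {P₀ : Ideal (OO ℚ)} (hP₀ : P₀.IsMaximal) (hpP₀ : (p : OO ℚ) ∈ P₀)
    {D : Subgroup (GF ℚ)} (hID : Ic P₀ ≤ D) (hDD : D ≤ Dc P₀) (hrD : ∀ g, ∃ δ ∈ D, r δ = r g)
    {h : r.ker →* Multiplicative k}
    (hD : ∀ τ : r.ker, (τ : GF ℚ) ∈ D → h τ = 1) {P : Ideal (OO ℚ)} (hP : P.IsMaximal)
    (hpP : (p : OO ℚ) ∈ P) {τ : r.ker} (hτ : InInertia P (τ : GF ℚ)) : h τ = 1 := by
  have hFROB : S_FROB := Pool.Agent.W571.FM.main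
  obtain ⟨g, hg⟩ := (hFROB p hp.out).2 P₀ P hP₀ hP hpP₀ hpP
  have h1 := hg τ hτ
  obtain ⟨δ, hδ, hδg⟩ := hrD g⁻¹
  set u : GF ℚ := δ⁻¹ * g⁻¹ with hu
  have hu1 : u ∈ r.ker := by
    rw [MonoidHom.mem_ker, hu, map_mul, map_inv, hδg, inv_mul_cancel]
  have h2 : InInertia P₀ (u * τ * u⁻¹) := by
    have h3 := inertia_conj h1 (inv_mem (hDD hδ))
    have e : δ⁻¹ * (g⁻¹ * (τ : GF ℚ) * g) * δ⁻¹⁻¹ = u * τ * u⁻¹ := by
      rw [hu]; group
    rwa [e] at h3
  let u' : r.ker := ⟨u, hu1⟩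
  have h4 : h (u' * τ * u'⁻¹) = 1 := hD _ (hID h2)
  rw [map_mul, map_mul, map_inv, mul_comm (h u'), mul_inv_cancel_right] at h4
  exact h4

omit [Finite k] [CharP k p] hp in
/-- from the generator to the group -/
theorem eig_of_gen [Finite k] {r χ : GF ℚ →* kˣ} (hχ : ∀ g, r g = 1 → χ g = 1)
    {g : GF ℚ} (hg : ∀ σ, r σ ∈ Subgroup.zpowers (r g))
    (h : r.ker →* Multiplicative k)
    (hb : ∀ σ, Multiplicative.toAdd (h (MulAut.conjNormal g σ)) = (χ g : k) * Multiplicative.toAdd (h σ)) :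
    EigR r χ h := by
  intro σ τ
  obtain ⟨n, hn⟩ := (mem_powers_iff_mem_zpowers.2 (hg σ))
  have hk' : r g ^ n = r σ := hn
  have hu : σ * (g ^ n)⁻¹ ∈ r.ker := by
    rw [MonoidHom.mem_ker, map_mul, map_inv, map_pow, hk', mul_inv_cancel]
  have e : (MulAut.conjNormal σ τ : r.ker) =
      MulAut.conjNormal (σ * (g ^ n)⁻¹) (MulAut.conjNormal (g ^ n) τ) := by
    rw [← MulAut.mul_apply, ← map_mul, inv_mul_cancel_right]
  have e2 : χ σ = χ g ^ n := by
    have h1 := hχ _ hu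
    rw [map_mul, map_inv, map_pow, mul_inv_eq_one] at h1
    exact h1
  rw [e, Pool.Agent.W5h93.FMR.conj_self_N h hu, Pool.Agent.W5h93.FMR.conj_pow_eig h hb, e2,
    Units.val_pow_eq_pow_val]

/-- an invariant unramified homomorphism is trivial -/
theorem inv_key {r : GF ℚ →* kˣ} (hro : IsOpen (r.ker : Set (GF ℚ)))
    (h : r.ker →* Multiplicative k) (ho : IsOpen (h.ker : Set r.ker))
    (hur : ∀ P : Ideal (OO ℚ), P.IsMaximal → ∀ τ : r.ker, InInertia P (τ : GF ℚ) → h τ = 1)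
    (hinv : ∀ (σ : GF ℚ) (τ : r.ker), h (MulAut.conjNormal σ τ) = h τ) : ∀ σ, h σ = 1 := by
  classical
  have := Fintype.ofFinite k
  have hGEN : S_GEN := Pool.Agent.W215.FM.main
  have hm : ∀ σ ∈ (⊤ : Subgroup (GF ℚ)), σ ^ (Nat.card k - 1) ∈ r.ker := by
    intro σ _
    rw [MonoidHom.mem_ker, map_pow]
    apply Units.ext
    rw [Units.val_pow_eq_pow_val, Nat.card_eq_fintype_card,
      FiniteField.pow_card_sub_one_eq_one _ (r σ).ne_zero, Units.val_one]
  obtain ⟨f, hf⟩ := ext_sub (N := r.ker) ⊤ le_top r (fun g => MonoidHom.mem_ker) h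
    (fun σ _ τ => hinv σ τ) (Nat.card k - 1) hm
  let f' : GF ℚ →* Multiplicative k := f.comp (Subgroup.topEquiv.symm.toMonoidHom)
  have hff : ∀ σ : GF ℚ, f' σ = h ⟨σ ^ (Nat.card k - 1), hm σ trivial⟩ := fun σ => hf ⟨σ, trivial⟩
  have hfN : ∀ σ : r.ker, f' σ = h σ ^ (Nat.card k - 1) := by
    intro σ
    rw [hff, ← map_pow]
    congr 1
  have hfo : IsOpen (f'.ker : Set (GF ℚ)) := by
    have h1 : IsOpen ((h.ker.map r.ker.subtype : Subgroup (GF ℚ)) : Set (GF ℚ)) := by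
      exact hro.isOpenEmbedding_subtypeVal.isOpenMap _ ho
    refine Subgroup.isOpen_mono ?_ h1
    rintro σ ⟨τ, h3, h4⟩
    have h4' : (τ : GF ℚ) = σ := h4
    have h6 : h τ = 1 := h3
    rw [MonoidHom.mem_ker, ← h4', hfN, h6, one_pow]
  have hall := hGEN _ f' hfo (by
    intro P hP τ hτ
    rw [hff]
    exact hur P hP _ (inertia_pow hτ _))
  intro σ
  have h1 := hall σ
  rw [hfN] at h1
  have h2 := congrArg Multiplicative.toAdd h1
  rw [toAdd_pow, toAdd_one, nsmul_eq_mul] at h2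
  refine one_of_toAdd ((mul_eq_zero.1 h2).resolve_left ?_)
  have hc : 1 < Nat.card k := Finite.one_lt_card
  rw [Nat.cast_sub hc.le, Nat.card_eq_fintype_card, FiniteField.cast_card_eq_zero, zero_sub, Nat.cast_one]
  exact neg_ne_zero.2 one_ne_zero

end

section key

variable {A : Type} [CommRing A] [IsLocalRing A] [IsNoetherianRing A] [TopologicalSpace A]
variable {p : ℕ} [hp : Fact p.Prime]

theorem res_cong {ρ : GF ℚ →* GL (Fin 2) A} {r : GF ℚ →* (ResidueField A)ˣ}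
    (hres : ∀ σ, residue A (ρ σ : Matrix (Fin 2) (Fin 2) A).det = (r σ : ResidueField A)) {σ : GF ℚ}
    (hσ : σ ∈ cong ρ 1) : σ ∈ r.ker := by
  rw [mem_cong, pow_one] at hσ
  have h1 : (residue A).mapMatrix (ρ σ : Matrix (Fin 2) (Fin 2) A) = 1 := by
    have h2 : (residue A).mapMatrix ((ρ σ : Matrix (Fin 2) (Fin 2) A) - 1) = 0 := by
      ext i j
      exact (residue_eq_zero_iff _).2 (hσ i j)
    rw [map_sub, map_one] at h2
    exact sub_eq_zero.1 h2
  rw [MonoidHom.mem_ker]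
  apply Units.ext
  rw [← hres, RingHom.map_det, h1, Matrix.det_one, Units.val_one]

theorem key (hA : IsAdic (maximalIdeal A)) (hfin : Finite (ResidueField A))
    (hpA : (p : A) ∈ maximalIdeal A) {ρ : GF ℚ →* GL (Fin 2) A}
    (hρ : ∀ i j, Continuous fun σ => (ρ σ : Matrix (Fin 2) (Fin 2) A) i j)
    {P₀ : Ideal (OO ℚ)} (hP₀ : P₀.IsMaximal) (hpP₀ : (p : OO ℚ) ∈ P₀)
    {D : Subgroup (GF ℚ)} (hID : Ic P₀ ≤ D) (hDD : D ≤ Dc P₀)
    (r : GF ℚ →* (ResidueField A)ˣ) (hrD : ∀ g, ∃ δ ∈ D, r δ = r g)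
    (hres : ∀ σ, residue A (ρ σ : Matrix (Fin 2) (Fin 2) A).trace = 1 + (r σ : ResidueField A) ∧
      residue A (ρ σ : Matrix (Fin 2) (Fin 2) A).det = (r σ : ResidueField A))
    {S : Set ℕ} (hS : ∀ l ∈ S, l.Prime ∧ l ≠ p ∧ (l : ResidueField A) ≠ 1 ∧
      ∀ Q : Ideal (OO ℚ), Q.IsMaximal → (l : OO ℚ) ∈ Q →
        (∃ φ, FrobAt l Q φ ∧ (r φ : ResidueField A) ≠ l) ∧
        ∃ φ, FrobAt l Q φ ∧ (r φ : ResidueField A) * l ≠ 1)
    (hur : ∀ Q : Ideal (OO ℚ), Q.IsMaximal → (p : OO ℚ) ∉ Q → (∀ l ∈ S, (l : OO ℚ) ∉ Q) →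
      ∀ τ, InInertia Q τ → ρ τ = 1)
    (hc1 : NoComp r r) (hc2 : NoComp r r⁻¹) (m : ℕ)
    (h : r.ker →* Multiplicative (ZMod p))
    (hm : ∀ σ : r.ker, (σ : GF ℚ) ∈ cong ρ m → h σ = 1)
    (hD : ∀ σ : r.ker, (σ : GF ℚ) ∈ D → h σ = 1) : ∀ σ, h σ = 1 := by
  have hchar := charP_residue p hpA
  set k := ResidueField A with hk
  have hro : IsOpen (r.ker : Set (GF ℚ)) :=
    Subgroup.isOpen_mono (fun σ hσ => res_cong (fun σ => (hres σ).2) hσ) (cong_open hA hρ 1)
  -- the generator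
  obtain ⟨⟨c, γ, hγ⟩, hc⟩ := IsCyclic.exists_generator (α := r.range)
  obtain ⟨g, hgD, hgγ⟩ := hrD γ
  have hgc : r g = c := hgγ.trans hγ
  have hgen : ∀ σ, r σ ∈ Subgroup.zpowers (r g) := by
    intro σ
    obtain ⟨n, hn⟩ := hc ⟨r σ, σ, rfl⟩
    refine ⟨n, ?_⟩
    have := congrArg (fun x : r.range => (x : kˣ)) hn
    rw [hgc]
    exact this
  have hgN : g ^ (Nat.card k - 1) ∈ r.ker := by
    classical
    have := Fintype.ofFinite k
    rw [MonoidHom.mem_ker, map_pow]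
    apply Units.ext
    rw [Units.val_pow_eq_pow_val, Nat.card_eq_fintype_card,
      FiniteField.pow_card_sub_one_eq_one _ (r g).ne_zero, Units.val_one]
  -- the eigenvectors for the whole group
  have hfinal : ∀ (χ : GF ℚ →* kˣ), (χ = 1 ∨ χ = r ∨ χ = r⁻¹) → ∀ h : r.ker →* Multiplicative k,
      (∀ σ : r.ker, (σ : GF ℚ) ∈ cong ρ m → h σ = 1) → (∀ σ : r.ker, (σ : GF ℚ) ∈ D → h σ = 1) →
      EigR r χ h → ∀ σ, h σ = 1 := by
    intro χ hχ h h1 h2 he
    have ho : IsOpen (h.ker : Set r.ker) := by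
      have h3 : IsOpen (((cong ρ m).subgroupOf r.ker : Subgroup r.ker) : Set r.ker) :=
        (cong_open hA hρ m).preimage continuous_subtype_val
      refine Subgroup.isOpen_mono ?_ h3
      intro σ hσ
      exact h1 σ (Subgroup.mem_subgroupOf.1 hσ)
    have hunr : ∀ P : Ideal (OO ℚ), P.IsMaximal → ∀ τ : r.ker, InInertia P (τ : GF ℚ) → h τ = 1 := by
      intro P hP τ hτ
      by_cases hpP : (p : OO ℚ) ∈ P
      · exact above_p hP₀ hpP₀ hID hDD hrD h2 hP hpP hτ
      · by_cases hSP : ∃ l ∈ S, (l : OO ℚ) ∈ P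
        · obtain ⟨l, hl, hlP⟩ := hSP
          obtain ⟨hl1, hl2, hl3, hl4⟩ := hS l hl
          obtain ⟨⟨φ, hφ1, hφ2⟩, ⟨ψ, hψ1, hψ2⟩⟩ := hl4 P hP hlP
          rcases hχ with rfl | rfl | rfl
          · refine tame_eig (p := p) hro he ho hl1 hl2 hP hlP hφ1 ?_ hτ
            rw [MonoidHom.one_apply, Units.val_one]
            exact hl3.symm
          · exact tame_eig (p := p) hro he ho hl1 hl2 hP hlP hφ1 hφ2 hτ
          · refine tame_eig (p := p) hro he ho hl1 hl2 hP hlP hψ1 ?_ hτ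
            rw [MonoidHom.inv_apply]
            intro h5
            apply hψ2
            rw [← h5, ← Units.val_mul, mul_inv_cancel, Units.val_one]
        · push Not at hSP
          refine h1 τ (mem_cong.2 ?_)
          rw [hur P hP hpP hSP _ hτ, Units.val_one, sub_self]
          intro a b
          exact Ideal.zero_mem _
    have hcomp : ∀ (σ : GF ℚ) (τ τ' : r.ker), (τ' : GF ℚ) = σ * τ * σ⁻¹ →
        Multiplicative.toAdd (h τ') = (χ σ : k) * Multiplicative.toAdd (h τ) := by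
      intro σ τ τ' hττ
      have h3 := he σ τ
      have e : (MulAut.conjNormal σ τ : r.ker) = τ' :=
        Subtype.ext ((MulAut.conjNormal_apply _ _).trans hττ.symm)
      rwa [e] at h3
    rcases hχ with rfl | rfl | rfl
    · refine inv_key hro h ho hunr fun σ τ => ?_
      have := he σ τ
      rw [MonoidHom.one_apply, Units.val_one, one_mul] at this
      exact Multiplicative.toAdd.injective this
    · exact hc1 h ho hunr hcomp
    · exact hc2 h ho hunr hcomp
  -- homomorphisms with values in the residue field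
  have hall : ∀ h : r.ker →* Multiplicative k, (∀ σ : r.ker, (σ : GF ℚ) ∈ cong ρ m → h σ = 1) →
      (∀ σ : r.ker, (σ : GF ℚ) ∈ D → h σ = 1) → ∀ σ, h σ = 1 := by
    intro h h1 h2
    refine of_eig (N := r.ker) hgN (fun h => (∀ σ : r.ker, (σ : GF ℚ) ∈ cong ρ m → h σ = 1) ∧
      (∀ σ : r.ker, (σ : GF ℚ) ∈ D → h σ = 1)) ?_ ?_ h ⟨h1, h2⟩
    · rintro h a ⟨h1, h2⟩
      constructor
      · intro σ hσ
        apply one_of_toAdd
        rw [Pool.Agent.W5h93.FMR.pr_apply]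
        refine Finset.sum_eq_zero fun i _ => ?_
        rw [h1, toAdd_one, mul_zero]
        rw [MulAut.conjNormal_apply]
        exact (cong_normal ρ m).conj_mem _ hσ _
      · intro σ hσ
        apply one_of_toAdd
        rw [Pool.Agent.W5h93.FMR.pr_apply]
        refine Finset.sum_eq_zero fun i _ => ?_
        rw [h2, toAdd_one, mul_zero]
        rw [MulAut.conjNormal_apply]
        exact mul_mem (mul_mem (pow_mem hgD i) hσ) (inv_mem (pow_mem hgD i))
    · rintro h ⟨h1, h2⟩ b hb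
      by_cases hb1 : (b : k) = 1
      · refine hfinal 1 (Or.inl rfl) h h1 h2 (eig_of_gen (fun _ _ => rfl) hgen h fun σ => ?_)
        rw [hb, hb1, MonoidHom.one_apply, Units.val_one]
      by_cases hb2 : ∃ φ : k ≃+* k, φ b = (r g : k)
      · obtain ⟨φ, hφ⟩ := hb2
        let h' : r.ker →* Multiplicative k := (AddMonoidHom.toMultiplicative (φ : k →+ k)).comp h
        have hh' : ∀ σ, Multiplicative.toAdd (h' σ) = φ (Multiplicative.toAdd (h σ)) := fun σ => rfl
        have hz : ∀ σ, h σ = 1 → h' σ = 1 := by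
          intro σ hσ
          apply one_of_toAdd
          rw [hh', hσ, toAdd_one, map_zero]
        have h3 := hfinal r (Or.inr (Or.inl rfl)) h' (fun σ hσ => hz σ (h1 σ hσ))
          (fun σ hσ => hz σ (h2 σ hσ)) (eig_of_gen (fun _ h => h) hgen h' fun σ => by
            rw [hh', hb, map_mul, hφ, hh'])
        intro σ
        have h4 := h3 σ
        apply one_of_toAdd
        have h5 : φ (Multiplicative.toAdd (h σ)) = 0 := by
          rw [← hh', h4, toAdd_one]
        exact (map_eq_zero_iff φ φ.injective).1 h5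
      by_cases hb3 : ∃ φ : k ≃+* k, φ b = (((r g)⁻¹ : kˣ) : k)
      · obtain ⟨φ, hφ⟩ := hb3
        let h' : r.ker →* Multiplicative k := (AddMonoidHom.toMultiplicative (φ : k →+ k)).comp h
        have hh' : ∀ σ, Multiplicative.toAdd (h' σ) = φ (Multiplicative.toAdd (h σ)) := fun σ => rfl
        have hz : ∀ σ, h σ = 1 → h' σ = 1 := by
          intro σ hσ
          apply one_of_toAdd
          rw [hh', hσ, toAdd_one, map_zero]
        have h3 := hfinal r⁻¹ (Or.inr (Or.inr rfl)) h' (fun σ hσ => hz σ (h1 σ hσ))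
          (fun σ hσ => hz σ (h2 σ hσ)) (eig_of_gen (fun σ h => by
            rw [MonoidHom.inv_apply, h, inv_one]) hgen h' fun σ => by
            rw [hh', hb, map_mul, hφ, hh', MonoidHom.inv_apply])
        intro σ
        have h4 := h3 σ
        apply one_of_toAdd
        have h5 : φ (Multiplicative.toAdd (h σ)) = 0 := by
          rw [← hh', h4, toAdd_one]
        exact (map_eq_zero_iff φ φ.injective).1 h5
      push Not at hb2 hb3
      refine layers (p := p) hpA hfin ρ g (r g) (hres g).1 (hres g).2 ?_ h b hb hb1 hb2 hb3 m h1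
      intro σ hσ
      have h3 := hres σ
      have h4 : (r σ : k) = 1 := by
        rw [MonoidHom.mem_ker.1 hσ, Units.val_one]
      rw [h4] at h3
      constructor
      · rw [← residue_eq_zero_iff, map_sub, h3.1, map_ofNat]
        norm_num
      · rw [← residue_eq_zero_iff, map_sub, h3.2, map_one, sub_self]
  -- conclusion
  let ι : ZMod p →+* k := ZMod.castHom dvd_rfl k
  let h' : r.ker →* Multiplicative k := (AddMonoidHom.toMultiplicative (ι : ZMod p →+ k)).comp h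
  have hh' : ∀ σ, Multiplicative.toAdd (h' σ) = ι (Multiplicative.toAdd (h σ)) := fun σ => rfl
  have hz : ∀ σ, h σ = 1 → h' σ = 1 := by
    intro σ hσ
    apply one_of_toAdd
    rw [hh', hσ, toAdd_one, map_zero]
  intro σ
  have h3 := hall h' (fun σ hσ => hz σ (hm σ hσ)) (fun σ hσ => hz σ (hD σ hσ)) σ
  apply one_of_toAdd
  have h5 : ι (Multiplicative.toAdd (h σ)) = 0 := by
    rw [← hh', h3, toAdd_one]
  exact (map_eq_zero_iff ι ι.injective).1 h5

end key

end Pool.Agent.W5h93.FMR
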